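import Mathlib

/-!
Free space of a fixed-angle linkage, the transfer lemma and the explicit coordinates of 3-space.
-/

set_option autoImplicit false

namespace Pool.Agent.Run7.h544

/-- Euclidean 3-space. -/
abbrev E3 : Type := EuclideanSpace ℝ (Fin 3)

/-- The free space of the linkage of the configuration `p` of the graph `G`: all placements with the
same inner products of the pairs of links with a common vertex (same lengths and angles) in which two
different links meet only in a common end vertex. -/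
def FreeSpace {n : ℕ} (G : SimpleGraph (Fin n)) (p : Fin n → E3) : Set (Fin n → E3) :=
  {r : Fin n → EuclideanSpace ℝ (Fin 3) |
    (∀ u v w, G.Adj u v → G.Adj u w →
      inner ℝ (r v - r u) (r w - r u) = inner ℝ (p v - p u) (p w - p u)) ∧
    (∀ a b c d, G.Adj a b → G.Adj c d → ¬ ((a = c ∧ b = d) ∨ (a = d ∧ b = c)) →
      ∀ x, x ∈ segment ℝ (r a) (r b) → x ∈ segment ℝ (r c) (r d) →
        ∃ v, (v = a ∨ v = b) ∧ (v = c ∨ v = d) ∧ x = r v)}

/-- The point with given coordinates. -/
noncomputable def mk3 (x y z : ℝ) : E3 := !₂[x, y, z]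

@[simp] lemma mk3_0 (x y z : ℝ) : mk3 x y z 0 = x := rfl
@[simp] lemma mk3_1 (x y z : ℝ) : mk3 x y z 1 = y := rfl
@[simp] lemma mk3_2 (x y z : ℝ) : mk3 x y z 2 = z := rfl

lemma ext3 {u v : E3} (h0 : u 0 = v 0) (h1 : u 1 = v 1) (h2 : u 2 = v 2) : u = v := by
  ext i
  fin_cases i
  · exact h0
  · exact h1
  · exact h2

lemma inner3 (u v : E3) : inner ℝ u v = u 0 * v 0 + u 1 * v 1 + u 2 * v 2 := by
  rw [PiLp.inner_apply, Fin.sum_univ_three]
  simp [mul_comm]

/-- Membership in the free space from an injectivity statement which compares with `p`. -/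
theorem mem_freeSpace {n : ℕ} {G : SimpleGraph (Fin n)} {p r : Fin n → E3}
    (hp : p ∈ FreeSpace G p) (hne : ∀ a b, G.Adj a b → p a ≠ p b)
    (hin : ∀ u v w, G.Adj u v → G.Adj u w →
      inner ℝ (r v - r u) (r w - r u) = inner ℝ (p v - p u) (p w - p u))
    (hcr : ∀ a b c d, G.Adj a b → G.Adj c d → ∀ s t s' t' : ℝ, 0 ≤ s → 0 ≤ t → s + t = 1 →
      0 ≤ s' → 0 ≤ t' → s' + t' = 1 → s • r a + t • r b = s' • r c + t' • r d →
      s • p a + t • p b = s' • p c + t' • p d) :
    r ∈ FreeSpace G p := by
  refine ⟨hin, ?_⟩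
  intro a b c d hab hcd hne' x hx hx'
  obtain ⟨s, t, hs, ht, hst, rfl⟩ := hx
  obtain ⟨s', t', hs', ht', hst', hx'⟩ := hx'
  have key := hcr a b c d hab hcd s t s' t' hs ht hst hs' ht' hst' hx'.symm
  obtain ⟨v, hv1, hv2, hv3⟩ := hp.2 a b c d hab hcd hne' (s • p a + t • p b)
    ⟨s, t, hs, ht, hst, rfl⟩ ⟨s', t', hs', ht', hst', key.symm⟩
  refine ⟨v, hv1, hv2, ?_⟩
  rcases hv1 with rfl | rfl
  · have h1 : t • (p b - p v) = 0 := by
      have : s • p v + t • p b = (s + t) • p v + t • (p b - p v) := by
        rw [add_smul, smul_sub]; abel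
      rw [this, hst, one_smul] at hv3
      simpa using hv3
    have ht0 : t = 0 := by
      rcases smul_eq_zero.1 h1 with h | h
      · exact h
      · exact absurd (sub_eq_zero.1 h).symm (hne _ _ hab)
    have hs1 : s = 1 := by linarith
    simp [ht0, hs1]
  · have h1 : s • (p a - p v) = 0 := by
      have : s • p a + t • p v = (s + t) • p v + s • (p a - p v) := by
        rw [add_smul, smul_sub]; abel
      rw [this, hst, one_smul] at hv3
      simpa using hv3
    have hs0 : s = 0 := by
      rcases smul_eq_zero.1 h1 with h | h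
      · exact h
      · exact absurd (sub_eq_zero.1 h) (hne _ _ hab)
    have ht1 : t = 1 := by linarith
    simp [hs0, ht1]

/-- The free space is invariant under linear isometries combined with translations. -/
theorem freeSpace_isometry {n : ℕ} {G : SimpleGraph (Fin n)} {p r : Fin n → E3}
    (hr : r ∈ FreeSpace G p) (f : E3 →ₗ[ℝ] E3) (hf : ∀ u v, inner ℝ (f u) (f v) = inner ℝ u v)
    (c : E3) : (fun v => f (r v) + c) ∈ FreeSpace G p := by
  have finj : Function.Injective f := by
    intro u v huv
    have h : inner ℝ (f (u - v)) (f (u - v)) = inner ℝ (u - v) (u - v) := hf _ _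
    rw [map_sub, huv, sub_self, inner_zero_left] at h
    have := inner_self_eq_zero.1 h.symm
    exact sub_eq_zero.1 this
  constructor
  · intro u v w huv huw
    have e1 : f (r v) + c - (f (r u) + c) = f (r v - r u) := by rw [map_sub]; abel
    have e2 : f (r w) + c - (f (r u) + c) = f (r w - r u) := by rw [map_sub]; abel
    simp only [e1, e2, hf]
    exact hr.1 u v w huv huw
  · intro a b c' d hab hcd hne x hx hx'
    obtain ⟨s, t, hs, ht, hst, rfl⟩ := hx
    obtain ⟨s', t', hs', ht', hst', hx'⟩ := hx'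
    have e : ∀ (s t : ℝ) (a b : Fin n), s + t = 1 →
        s • (f (r a) + c) + t • (f (r b) + c) = f (s • r a + t • r b) + c := by
      intro s t a b hst
      rw [map_add, map_smul, map_smul, smul_add, smul_add]
      have : c = s • c + t • c := by rw [← add_smul, hst, one_smul]
      nth_rewrite 3 [this]
      abel
    simp only at hx' ⊢
    rw [e s' t' c' d hst', e s t a b hst] at hx'
    have h2 := finj (add_right_cancel hx')
    obtain ⟨v, hv1, hv2, hv3⟩ := hr.2 a b c' d hab hcd hne (s • r a + t • r b)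
      ⟨s, t, hs, ht, hst, rfl⟩ ⟨s', t', hs', ht', hst', h2⟩
    refine ⟨v, hv1, hv2, ?_⟩
    rw [e s t a b hst, hv3]

/-- A point on a planar edge pair of parameters; a path of placements is continuous if each vertex
moves continuously. -/
theorem joinedIn_of_path {n : ℕ} {S : Set (Fin n → E3)} {p q : Fin n → E3}
    (γ : ℝ → Fin n → E3) (hc : ∀ v, Continuous fun t => γ t v) (h0 : γ 0 = p) (h1 : γ 1 = q)
    (hm : ∀ t, 0 ≤ t → t ≤ 1 → γ t ∈ S) : JoinedIn S p q := by
  refine JoinedIn.ofLine (f := γ) ?_ h0 h1 ?_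
  · exact (continuous_pi hc).continuousOn
  · rintro _ ⟨t, ht, rfl⟩
    exact hm t ht.1 ht.2

end Pool.Agent.Run7.h544
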