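import Pool.Agent.Run7.h544.Motions

/-!
All stack states are joined in the free space.
-/

set_option autoImplicit false

namespace Pool.Agent.Run7.h544

variable {n : ℕ} {G : SimpleGraph (Fin n)} {p : Fin n → E3} {β γ δ : Fin n → ℝ}

open Classical in
/-- Change of one sign. -/
noncomputable def setSign (τ : ℝ → ℝ → ℝ) (b0 g0 x : ℝ) (b g : ℝ) : ℝ :=
  if b = b0 ∧ g = g0 then x else τ b g

lemma flipState_end {b0 g0 τ0 θ : ℝ} (τ : ℝ → ℝ → ℝ) (hθ : Real.sin θ = 0) {φ : ℝ → ℝ}
    (hc : ∀ b, Real.cos (φ b) = dc b0 g0 τ0 θ b) (hs : ∀ b, Real.sin (φ b) = 0) :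
    flipState b0 g0 τ0 θ β γ δ τ = stack β γ δ φ (setSign τ b0 g0 (τ0 * Real.cos θ)) := by
  have hds : ∀ b, ds b0 g0 θ b = 0 := by
    intro b
    unfold ds
    split_ifs
    · rfl
    · rw [hθ]; simp
  have hd0 : dc b0 g0 τ0 θ b0 = 1 := by simp [dc]
  ext v : 1
  unfold flipState stack F
  apply ext3
  · simp only [mk3_0, hc, hs, fx, hds]
    split_ifs <;> ring
  · simp only [mk3_1, fy, hθ]
    split_ifs <;> ring
  · simp only [mk3_2, hc, hs, hds, fz, setSign]
    split_ifs with h
    · rw [h.1, hd0]; ring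
    · ring

lemma nu_of_sin {b0 g0 θ : ℝ} (hθ : Real.sin θ = 0) (b : ℝ) : nu b0 g0 θ b = |b - b0| := by
  have h3 := Real.sin_sq_add_cos_sq θ
  have h4 : Real.cos θ ^ 2 = 1 := by rw [hθ] at h3; linarith
  unfold nu
  rw [hθ, h4]
  rw [mul_one]
  norm_num
  exact Real.sqrt_sq_eq_abs _

/-- Angle function at an end of the flip. -/
noncomputable def endAngle (b0 x : ℝ) (b : ℝ) : ℝ := if x * (b - b0) > 0 then Real.pi else 0

lemma sin_endAngle (b0 x b : ℝ) : Real.sin (endAngle b0 x b) = 0 := by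
  unfold endAngle
  split_ifs <;> simp

lemma cos_endAngle {b0 g0 τ0 θ : ℝ} (hτ0 : τ0 ^ 2 = 1) (hθ : Real.sin θ = 0) (b : ℝ) :
    Real.cos (endAngle b0 (τ0 * Real.cos θ) b) = dc b0 g0 τ0 θ b := by
  have h3 := Real.sin_sq_add_cos_sq θ
  have h4 : (τ0 * Real.cos θ) ^ 2 = 1 := by
    rw [hθ] at h3
    linear_combination Real.cos θ ^ 2 * hτ0 + h3
  unfold dc endAngle
  rw [nu_of_sin hθ]
  have e : τ0 * (b - b0) * Real.cos θ = (τ0 * Real.cos θ) * (b - b0) := by ring
  rw [e]
  set x := τ0 * Real.cos θ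
  have hx : x = 1 ∨ x = -1 := by
    have : (x - 1) * (x + 1) = 0 := by linear_combination h4
    rcases mul_eq_zero.1 this with h | h
    · left; linarith
    · right; linarith
  by_cases hb : b = b0
  · simp [hb]
  · have hb' : b - b0 ≠ 0 := sub_ne_zero.2 hb
    rw [if_neg hb]
    rcases hx with hx | hx
    · rw [hx]
      rcases lt_or_gt_of_ne hb' with h | h
      · rw [if_neg (by linarith), abs_of_neg h, Real.cos_zero]
        field_simp
      · rw [if_pos (by linarith), abs_of_pos h, Real.cos_pi]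
        field_simp
    · rw [hx]
      rcases lt_or_gt_of_ne hb' with h | h
      · rw [if_pos (by linarith), abs_of_neg h, Real.cos_pi]
        field_simp
      · rw [if_neg (by linarith), abs_of_pos h, Real.cos_zero]
        field_simp

lemma setSign_self (τ : ℝ → ℝ → ℝ) (b0 g0 : ℝ) : setSign τ b0 g0 (τ b0 g0) = τ := by
  funext b g
  unfold setSign
  split_ifs with h
  · rw [h.1, h.2]
  · rfl

lemma continuous_flip {b0 g0 : ℝ} (hg0 : g0 ≠ 0) (τ0 : ℝ) (τ : ℝ → ℝ → ℝ) (v : Fin n) :
    Continuous fun t : ℝ => flipState b0 g0 τ0 (Real.pi * t) β γ δ τ v := by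
  have hnu : ∀ b, Continuous fun t : ℝ => nu b0 g0 (Real.pi * t) b := by
    intro b
    unfold nu
    fun_prop
  have hdc : ∀ b, Continuous fun t : ℝ => dc b0 g0 τ0 (Real.pi * t) b := by
    intro b
    unfold dc
    by_cases hb : b = b0
    · simp only [if_pos hb]; exact continuous_const
    · simp only [if_neg hb]
      exact Continuous.div (by fun_prop) (hnu b) (fun t => (nu_pos hg0 hb).ne')
  have hds : ∀ b, Continuous fun t : ℝ => ds b0 g0 (Real.pi * t) b := by
    intro b
    unfold ds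
    by_cases hb : b = b0
    · simp only [if_pos hb]; exact continuous_const
    · simp only [if_neg hb]
      exact Continuous.div (by fun_prop) (hnu b) (fun t => (nu_pos hg0 hb).ne')
  have hfx : ∀ b g, Continuous fun t : ℝ => fx b0 g0 (Real.pi * t) τ b g := by
    intro b g
    unfold fx
    by_cases h : b = b0 ∧ g = g0
    · simp only [if_pos h]; exact continuous_const
    · simp only [if_neg h]
      exact (continuous_const.mul (hds b)).neg
  have hfy : ∀ b g, Continuous fun t : ℝ => fy b0 g0 (Real.pi * t) b g := by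
    intro b g
    unfold fy
    by_cases h : b = b0 ∧ g = g0
    · simp only [if_pos h]; fun_prop
    · simp only [if_neg h]; exact continuous_const
  have hfz : ∀ b g, Continuous fun t : ℝ => fz b0 g0 τ0 (Real.pi * t) τ b g := by
    intro b g
    unfold fz
    by_cases h : b = b0 ∧ g = g0
    · simp only [if_pos h]; fun_prop
    · simp only [if_neg h]
      exact continuous_const.mul (hdc b)
  have h1 := hdc (β v)
  have h2 := hds (β v)
  have h3 := hfx (β v) (γ v)
  have h4 := hfy (β v) (γ v)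
  have h5 := hfz (β v) (γ v)
  unfold flipState F mk3
  fun_prop

theorem stack_flip (hL : Levels G β γ δ) (hb : IsBase p β γ δ) (hp : p ∈ FreeSpace G p)
    (hne : ∀ a b, G.Adj a b → p a ≠ p b) {τ : ℝ → ℝ → ℝ} (hτ : ∀ b g, τ b g ^ 2 = 1)
    {b0 g0 : ℝ} (hg0 : g0 ≠ 0) (φ φ' : ℝ → ℝ) :
    JoinedIn (FreeSpace G p) (stack β γ δ φ τ)
      (stack β γ δ φ' (setSign τ b0 g0 (-(τ b0 g0)))) := by
  have hτ0 := hτ b0 g0
  have hs0 : Real.sin (Real.pi * 0) = 0 := by simp
  have hs1 : Real.sin (Real.pi * 1) = 0 := by simp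
  have e0 := flipState_end (β := β) (γ := γ) (δ := δ) τ hs0
    (cos_endAngle (b0 := b0) (g0 := g0) hτ0 hs0) (sin_endAngle b0 (τ b0 g0 * Real.cos (Real.pi * 0)))
  have e1 := flipState_end (β := β) (γ := γ) (δ := δ) τ hs1
    (cos_endAngle (b0 := b0) (g0 := g0) hτ0 hs1) (sin_endAngle b0 (τ b0 g0 * Real.cos (Real.pi * 1)))
  set φ0 := endAngle b0 (τ b0 g0 * Real.cos (Real.pi * 0))
  set φ1 := endAngle b0 (τ b0 g0 * Real.cos (Real.pi * 1))
  have hτ' : ∀ b g, setSign τ b0 g0 (-(τ b0 g0)) b g ^ 2 = 1 := by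
    intro b g
    unfold setSign
    split_ifs
    · rw [neg_sq]; exact hτ0
    · exact hτ b g
  have e0' : flipState b0 g0 (τ b0 g0) (Real.pi * 0) β γ δ τ = stack β γ δ φ0 τ := by
    rw [e0]; simp [setSign_self]
  have e1' : flipState b0 g0 (τ b0 g0) (Real.pi * 1) β γ δ τ =
      stack β γ δ φ1 (setSign τ b0 g0 (-(τ b0 g0))) := by
    rw [e1]; simp
  have mid : JoinedIn (FreeSpace G p) (stack β γ δ φ0 τ)
      (stack β γ δ φ1 (setSign τ b0 g0 (-(τ b0 g0)))) := by
    refine joinedIn_of_path (fun t => flipState b0 g0 (τ b0 g0) (Real.pi * t) β γ δ τ) ?_ ?_ ?_ ?_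
    · intro v
      exact continuous_flip hg0 _ _ v
    · exact e0'
    · exact e1'
    · intro t ht0 ht1
      rcases eq_or_lt_of_le ht0 with rfl | ht0
      · show flipState b0 g0 (τ b0 g0) (Real.pi * 0) β γ δ τ ∈ _
        rw [e0']
        exact stack_mem hL hb hp hne _ hτ
      rcases eq_or_lt_of_le ht1 with rfl | ht1
      · show flipState b0 g0 (τ b0 g0) (Real.pi * 1) β γ δ τ ∈ _
        rw [e1']
        exact stack_mem hL hb hp hne _ hτ'
      refine flipState_mem hL hb hp hne hτ hg0 ?_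
      apply ne_of_gt
      apply Real.sin_pos_of_pos_of_lt_pi
      · positivity
      · nlinarith [Real.pi_pos]
  exact ((stack_rotate hL hb hp hne φ φ0 hτ).trans mid).trans
    (stack_rotate hL hb hp hne φ1 φ' hτ')

open Classical in
/-- Mixed sign functions. -/
noncomputable def mix (β γ : Fin n → ℝ) (τ τ' : ℝ → ℝ → ℝ) (s : Finset (Fin n)) (b g : ℝ) : ℝ :=
  if ∃ v ∈ s, β v = b ∧ γ v = g then τ' b g else τ b g

lemma stack_congr (φ : ℝ → ℝ) {τ τ' : ℝ → ℝ → ℝ}
    (h : ∀ v, δ v ≠ 0 → τ (β v) (γ v) = τ' (β v) (γ v)) :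
    stack β γ δ φ τ = stack β γ δ φ τ' := by
  ext v : 1
  by_cases hv : δ v = 0
  · simp [stack, F, hv]
  · simp [stack, F, h v hv]

theorem stack_joined (hL : Levels G β γ δ) (hb : IsBase p β γ δ) (hp : p ∈ FreeSpace G p)
    (hne : ∀ a b, G.Adj a b → p a ≠ p b) {τ τ' : ℝ → ℝ → ℝ} (hτ : ∀ b g, τ b g ^ 2 = 1)
    (hτ' : ∀ b g, τ' b g ^ 2 = 1) (φ φ' : ℝ → ℝ) :
    JoinedIn (FreeSpace G p) (stack β γ δ φ τ) (stack β γ δ φ' τ') := by
  have hmix : ∀ s b g, mix β γ τ τ' s b g ^ 2 = 1 := by
    intro s b g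
    unfold mix
    split_ifs
    · exact hτ' b g
    · exact hτ b g
  have key : ∀ s : Finset (Fin n),
      JoinedIn (FreeSpace G p) (stack β γ δ φ τ) (stack β γ δ φ (mix β γ τ τ' s)) := by
    intro s
    induction s using Finset.induction_on with
    | empty =>
      have : mix β γ τ τ' ∅ = τ := by
        funext b g
        simp [mix]
      rw [this]
      exact JoinedIn.refl (stack_mem hL hb hp hne φ hτ)
    | insert w s hw ih =>
      set T := mix β γ τ τ' s with hT
      by_cases hg : γ w = 0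
      · have : stack β γ δ φ (mix β γ τ τ' (insert w s)) = stack β γ δ φ T := by
          apply stack_congr
          intro v hv
          have hgv : γ v ≠ 0 := fun h => hv (hL.supp v h)
          have hne' : ¬ (β w = β v ∧ γ w = γ v) := by
            rintro ⟨-, h⟩
            exact hgv (h ▸ hg)
          simp only [hT, mix, Finset.exists_mem_insert, hne', false_or]
        rw [this]
        exact ih
      · have hsq : T (β w) (γ w) ^ 2 = 1 := hmix s _ _
        have hsq' := hτ' (β w) (γ w)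
        have hins : mix β γ τ τ' (insert w s) = setSign T (β w) (γ w) (τ' (β w) (γ w)) := by
          funext b g
          unfold setSign
          by_cases h : b = β w ∧ g = γ w
          · rw [if_pos h, h.1, h.2]
            simp [mix]
          · rw [if_neg h]
            have h' : ¬ (β w = b ∧ γ w = g) := fun h' => h ⟨h'.1.symm, h'.2.symm⟩
            simp only [hT, mix, Finset.exists_mem_insert, h', false_or]
        have hcase : τ' (β w) (γ w) = T (β w) (γ w) ∨ τ' (β w) (γ w) = - T (β w) (γ w) := by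
          have : (τ' (β w) (γ w) - T (β w) (γ w)) * (τ' (β w) (γ w) + T (β w) (γ w)) = 0 := by
            linear_combination hsq' - hsq
          rcases mul_eq_zero.1 this with h | h
          · left; linarith
          · right; linarith
        rcases hcase with h | h
        · rw [hins, h, setSign_self]
          exact ih
        · rw [hins, h]
          exact ih.trans (stack_flip hL hb hp hne (hmix s) hg φ φ)
  have h1 := key Finset.univ
  have h2 : stack β γ δ φ (mix β γ τ τ' Finset.univ) = stack β γ δ φ τ' := by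
    apply stack_congr
    intro v _
    unfold mix
    rw [if_pos ⟨v, Finset.mem_univ v, rfl, rfl⟩]
  rw [h2] at h1
  exact h1.trans (stack_rotate hL hb hp hne φ φ' hτ')

/-- Any two flat states given by sign functions are joined. -/
theorem flat_flat_joined (hL : Levels G β γ δ) (hb : IsBase p β γ δ) (hp : p ∈ FreeSpace G p)
    (hne : ∀ a b, G.Adj a b → p a ≠ p b) {σ σ' : ℝ → ℝ} {τ τ' : ℝ → ℝ → ℝ}
    (hσ : ∀ b, σ b ^ 2 = 1) (hτ : ∀ b g, τ b g ^ 2 = 1) (hσ' : ∀ b, σ' b ^ 2 = 1)
    (hτ' : ∀ b g, τ' b g ^ 2 = 1) (hf : flat β γ δ σ τ ∈ FreeSpace G p)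
    (hf' : flat β γ δ σ' τ' ∈ FreeSpace G p) :
    JoinedIn (FreeSpace G p) (flat β γ δ σ τ) (flat β γ δ σ' τ') := by
  have conv : ∀ (σ : ℝ → ℝ) (τ : ℝ → ℝ → ℝ), (∀ b, σ b ^ 2 = 1) →
      (fun v => F σ (fun _ => 0) (fun _ _ => 0) (fun _ _ => 0) τ (β v) (γ v) (δ v)) =
      stack β γ δ (fun b => if σ b = 1 then 0 else Real.pi) (fun b g => τ b g * σ b) := by
    intro σ τ hσ
    have hc : ∀ b, Real.cos (if σ b = 1 then 0 else Real.pi) = σ b := by
      intro b
      have : (σ b - 1) * (σ b + 1) = 0 := by linear_combination hσ b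
      rcases mul_eq_zero.1 this with h | h
      · have h' : σ b = 1 := by linarith
        rw [if_pos h', h', Real.cos_zero]
      · have h' : σ b = -1 := by linarith
        rw [if_neg (by rw [h']; norm_num), h', Real.cos_pi]
    have hs : ∀ b, Real.sin (if σ b = 1 then 0 else Real.pi) = 0 := by
      intro b
      split_ifs <;> simp
    ext v : 1
    unfold stack F
    apply ext3
    · simp only [mk3_0, hc, hs]; ring
    · simp only [mk3_1]
    · simp only [mk3_2, hc, hs]
      linear_combination - (δ v * τ (β v) (γ v)) * hσ (β v)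
  have h1 := flat_joined hL hb hp hne hσ hτ hf
  have h2 := flat_joined hL hb hp hne hσ' hτ' hf'
  rw [conv σ τ hσ] at h1
  rw [conv σ' τ' hσ'] at h2
  have h3 := stack_joined hL hb hp hne
    (τ := fun b g => τ b g * σ b) (τ' := fun b g => τ' b g * σ' b)
    (fun b g => by linear_combination (σ b ^ 2) * hτ b g + hσ b)
    (fun b g => by linear_combination (σ' b ^ 2) * hτ' b g + hσ' b)
    (fun b => if σ b = 1 then 0 else Real.pi) (fun b => if σ' b = 1 then 0 else Real.pi)
  exact (h1.trans h3).trans h2.symm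

end Pool.Agent.Run7.h544
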