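import Pool.Agent.Run7.h544.States

/-!
The motions between flat states and stack states, and between any two stack states.
-/

set_option autoImplicit false

namespace Pool.Agent.Run7.h544

variable {n : ℕ} {G : SimpleGraph (Fin n)} {p : Fin n → E3} {β γ δ : Fin n → ℝ}

/-- Flat state with signs `σ` of the perpendicular bars and `τ` of the last bars. -/
noncomputable def flat (β γ δ : Fin n → ℝ) (σ : ℝ → ℝ) (τ : ℝ → ℝ → ℝ) : Fin n → E3 :=
  fun v => F σ (fun _ => 0) (fun _ _ => 0) τ (fun _ _ => 0) (β v) (γ v) (δ v)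

/-- Stack state with angles `φ` of the perpendicular bars and signs `τ` of the last bars. -/
noncomputable def stack (β γ δ : Fin n → ℝ) (φ : ℝ → ℝ) (τ : ℝ → ℝ → ℝ) : Fin n → E3 :=
  fun v => F (fun b => Real.cos (φ b)) (fun b => Real.sin (φ b))
    (fun b g => - (τ b g * Real.sin (φ b))) (fun _ _ => 0) (fun b g => τ b g * Real.cos (φ b))
    (β v) (γ v) (δ v)

theorem flat_joined (hL : Levels G β γ δ) (hb : IsBase p β γ δ) (hp : p ∈ FreeSpace G p)
    (hne : ∀ a b, G.Adj a b → p a ≠ p b) {σ : ℝ → ℝ} {τ : ℝ → ℝ → ℝ} (hσ : ∀ b, σ b ^ 2 = 1)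
    (hτ : ∀ b g, τ b g ^ 2 = 1) (hf : flat β γ δ σ τ ∈ FreeSpace G p) :
    JoinedIn (FreeSpace G p) (flat β γ δ σ τ)
      (fun v => F σ (fun _ => 0) (fun _ _ => 0) (fun _ _ => 0) τ (β v) (γ v) (δ v)) := by
  refine joinedIn_of_path (fun t v => F σ (fun _ => 0) (fun _ _ => 0)
    (fun b g => τ b g * Real.cos (Real.pi / 2 * t)) (fun b g => τ b g * Real.sin (Real.pi / 2 * t))
      (β v) (γ v) (δ v)) ?_ ?_ ?_ ?_
  · intro v
    unfold F mk3
    fun_prop
  · ext v : 1
    simp [flat]
  · ext v : 1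
    simp
  · intro t ht0 ht1
    rcases eq_or_lt_of_le ht0 with rfl | ht0
    · have : (fun v => F σ (fun _ => 0) (fun _ _ => 0)
          (fun b g => τ b g * Real.cos (Real.pi / 2 * 0))
          (fun b g => τ b g * Real.sin (Real.pi / 2 * 0)) (β v) (γ v) (δ v)) = flat β γ δ σ τ := by
        ext v : 1
        simp [flat]
      show (fun v => F σ (fun _ => 0) (fun _ _ => 0)
          (fun b g => τ b g * Real.cos (Real.pi / 2 * 0))
          (fun b g => τ b g * Real.sin (Real.pi / 2 * 0)) (β v) (γ v) (δ v)) ∈ _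
      rw [this]; exact hf
    have hsin : Real.sin (Real.pi / 2 * t) ≠ 0 := by
      apply ne_of_gt
      apply Real.sin_pos_of_pos_of_lt_pi
      · positivity
      · nlinarith [Real.pi_pos]
    have hcs := Real.sin_sq_add_cos_sq (Real.pi / 2 * t)
    set C := Real.cos (Real.pi / 2 * t)
    set S := Real.sin (Real.pi / 2 * t)
    refine mem_of_inj hL hb hp hne ?_ ?_ ?_ ?_
    · intro b; simp [hσ]
    · intro b g
      linear_combination (C ^ 2 + S ^ 2) * hτ b g + hcs
    · intro b g; simp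
    · intro b g l b' g' l' _ _ h
      have e0 := congrArg (fun z : E3 => z 0) h
      have e1 := congrArg (fun z : E3 => z 1) h
      have e2 := congrArg (fun z : E3 => z 2) h
      simp only [F, mk3_0, mk3_1, mk3_2, mul_zero, add_zero, zero_add] at e0 e1 e2
      have e3 : l * τ b g = l' * τ b' g' := by
        have : S * (l * τ b g) = S * (l' * τ b' g') := by linear_combination e2
        exact mul_left_cancel₀ hsin this
      have e4 : b = b' := by linear_combination e1 - C * e3
      subst e4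
      have e5 : g = g' := by linear_combination σ b * e0 - (g - g') * hσ b
      subst e5
      refine ⟨rfl, rfl, ?_⟩
      linear_combination τ b g * e3 - (l - l') * hτ b g

theorem stack_mem (hL : Levels G β γ δ) (hb : IsBase p β γ δ) (hp : p ∈ FreeSpace G p)
    (hne : ∀ a b, G.Adj a b → p a ≠ p b) (φ : ℝ → ℝ) {τ : ℝ → ℝ → ℝ}
    (hτ : ∀ b g, τ b g ^ 2 = 1) : stack β γ δ φ τ ∈ FreeSpace G p := by
  refine mem_of_inj hL hb hp hne ?_ ?_ ?_ ?_
  · intro b
    have := Real.sin_sq_add_cos_sq (φ b)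
    linarith
  · intro b g
    have := Real.sin_sq_add_cos_sq (φ b)
    linear_combination (Real.cos (φ b) ^ 2 + Real.sin (φ b) ^ 2) * hτ b g + this
  · intro b g; ring
  · intro b g l b' g' l' _ _ h
    have e0 := congrArg (fun z : E3 => z 0) h
    have e1 := congrArg (fun z : E3 => z 1) h
    have e2 := congrArg (fun z : E3 => z 2) h
    simp only [F, mk3_0, mk3_1, mk3_2, mul_zero, add_zero] at e0 e1 e2
    subst e1
    have hcs := Real.sin_sq_add_cos_sq (φ b)
    have e3 : g = g' := by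
      linear_combination Real.cos (φ b) * e0 + Real.sin (φ b) * e2 - (g - g') * hcs
    subst e3
    have e4 : l * τ b g = l' * τ b g := by
      linear_combination Real.cos (φ b) * e2 - Real.sin (φ b) * e0
        - (l * τ b g - l' * τ b g) * hcs
    refine ⟨rfl, rfl, ?_⟩
    linear_combination τ b g * e4 - (l - l') * hτ b g

theorem stack_rotate (hL : Levels G β γ δ) (hb : IsBase p β γ δ) (hp : p ∈ FreeSpace G p)
    (hne : ∀ a b, G.Adj a b → p a ≠ p b) (φ φ' : ℝ → ℝ) {τ : ℝ → ℝ → ℝ}
    (hτ : ∀ b g, τ b g ^ 2 = 1) :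
    JoinedIn (FreeSpace G p) (stack β γ δ φ τ) (stack β γ δ φ' τ) := by
  refine joinedIn_of_path (fun t => stack β γ δ (fun b => (1 - t) * φ b + t * φ' b) τ) ?_ ?_ ?_ ?_
  · intro v
    unfold stack F mk3
    fun_prop
  · simp
  · simp
  · intro t _ _
    exact stack_mem hL hb hp hne _ hτ

section flip

variable (b0 g0 τ0 θ : ℝ)

/-- Denominator in the dodging direction. -/
noncomputable def nu (b : ℝ) : ℝ :=
  Real.sqrt ((b - b0) ^ 2 * Real.cos θ ^ 2 + g0 ^ 2 * Real.sin θ ^ 2)

lemma nu_pos {b0 g0 θ b : ℝ} (hg : g0 ≠ 0) (hb : b ≠ b0) : 0 < nu b0 g0 θ b := by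
  apply Real.sqrt_pos.2
  have h1 : 0 < (b - b0) ^ 2 := by
    have : b - b0 ≠ 0 := sub_ne_zero.2 hb
    positivity
  have h2 : 0 < g0 ^ 2 := by positivity
  have h3 := Real.sin_sq_add_cos_sq θ
  rcases eq_or_ne (Real.cos θ) 0 with h | h
  · have : Real.sin θ ^ 2 = 1 := by rw [h] at h3; linarith
    rw [h, this]
    nlinarith
  · have h4 : 0 < Real.cos θ ^ 2 := by positivity
    have h5 : 0 ≤ g0 ^ 2 * Real.sin θ ^ 2 := by positivity
    have h6 : 0 < (b - b0) ^ 2 * Real.cos θ ^ 2 := by positivity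
    linarith

lemma nu_sq (b : ℝ) : nu b0 g0 θ b ^ 2 = (b - b0) ^ 2 * Real.cos θ ^ 2 + g0 ^ 2 * Real.sin θ ^ 2 := by
  unfold nu
  rw [Real.sq_sqrt]
  positivity

/-- First coordinate of the dodging direction at height `b`. -/
noncomputable def dc (b : ℝ) : ℝ :=
  if b = b0 then 1 else - (τ0 * (b - b0) * Real.cos θ) / nu b0 g0 θ b

/-- Second coordinate of the dodging direction at height `b`. -/
noncomputable def ds (b : ℝ) : ℝ := if b = b0 then 0 else g0 * Real.sin θ / nu b0 g0 θ b

open Classical in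
/-- Directions of the last bars during the flip of the last bar at `(b0, g0)`. -/
noncomputable def fx (τ : ℝ → ℝ → ℝ) (b g : ℝ) : ℝ :=
  if b = b0 ∧ g = g0 then 0 else - (τ b g * ds b0 g0 θ b)

open Classical in
/-- Component along the axis. -/
noncomputable def fy (b g : ℝ) : ℝ :=
  if b = b0 ∧ g = g0 then Real.sin θ else 0

open Classical in
/-- Third component. -/
noncomputable def fz (τ : ℝ → ℝ → ℝ) (b g : ℝ) : ℝ :=
  if b = b0 ∧ g = g0 then τ0 * Real.cos θ else τ b g * dc b0 g0 τ0 θ b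

/-- The state during the flip of the last bar at `(b0, g0)`. -/
noncomputable def flipState (β γ δ : Fin n → ℝ) (τ : ℝ → ℝ → ℝ) : Fin n → E3 :=
  fun v => F (dc b0 g0 τ0 θ) (ds b0 g0 θ) (fx b0 g0 θ τ) (fy b0 g0 θ) (fz b0 g0 τ0 θ τ)
    (β v) (γ v) (δ v)

end flip

theorem flipState_mem (hL : Levels G β γ δ) (hb : IsBase p β γ δ) (hp : p ∈ FreeSpace G p)
    (hne : ∀ a b, G.Adj a b → p a ≠ p b) {τ : ℝ → ℝ → ℝ} (hτ : ∀ b g, τ b g ^ 2 = 1)
    {b0 g0 θ : ℝ} (hg0 : g0 ≠ 0) (hθ : Real.sin θ ≠ 0) :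
    flipState b0 g0 (τ b0 g0) θ β γ δ τ ∈ FreeSpace G p := by
  have hcs := Real.sin_sq_add_cos_sq θ
  have hτ0 := hτ b0 g0
  set τ0 := τ b0 g0 with hτ0def
  have hunit : ∀ b, dc b0 g0 τ0 θ b ^ 2 + ds b0 g0 θ b ^ 2 = 1 := by
    intro b
    unfold dc ds
    split_ifs with h
    · norm_num
    · have hn := nu_pos (θ := θ) hg0 h
      have hn2 := nu_sq b0 g0 θ b
      have hn3 : nu b0 g0 θ b ≠ 0 := hn.ne'
      rw [div_pow, div_pow, ← add_div, div_eq_one_iff_eq (by positivity), hn2]
      linear_combination ((b - b0) ^ 2 * Real.cos θ ^ 2) * hτ0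
  refine mem_of_inj hL hb hp hne hunit ?_ ?_ ?_
  · intro b g
    unfold fx fy fz
    split_ifs with h
    · linear_combination (Real.cos θ ^ 2) * hτ0 + hcs
    · linear_combination (dc b0 g0 τ0 θ b ^ 2 + ds b0 g0 θ b ^ 2) * hτ b g + hunit b
  · intro b g
    unfold fx fz
    split_ifs with h
    · obtain ⟨h1, h2⟩ := h
      simp [ds, h1]
    · ring
  · -- injectivity
    have special : ∀ l b' g' l' : ℝ, ¬ (b' = b0 ∧ g' = g0) → (g' = 0 → l' = 0) →
        F (dc b0 g0 τ0 θ) (ds b0 g0 θ) (fx b0 g0 θ τ) (fy b0 g0 θ) (fz b0 g0 τ0 θ τ) b0 g0 l =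
        F (dc b0 g0 τ0 θ) (ds b0 g0 θ) (fx b0 g0 θ τ) (fy b0 g0 θ) (fz b0 g0 τ0 θ τ) b' g' l' →
        False := by
      intro l b' g' l' hn hs' h
      have e0 := congrArg (fun z : E3 => z 0) h
      have e1 := congrArg (fun z : E3 => z 1) h
      have e2 := congrArg (fun z : E3 => z 2) h
      have f1 : fx b0 g0 θ τ b0 g0 = 0 := by simp [fx]
      have f2 : fy b0 g0 θ b0 g0 = Real.sin θ := by simp [fy]
      have f3 : fz b0 g0 τ0 θ τ b0 g0 = τ0 * Real.cos θ := by simp [fz]
      have f4 : fx b0 g0 θ τ b' g' = - (τ b' g' * ds b0 g0 θ b') := by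
        unfold fx; rw [if_neg hn]
      have f5 : fy b0 g0 θ b' g' = 0 := by unfold fy; rw [if_neg hn]
      have f6 : fz b0 g0 τ0 θ τ b' g' = τ b' g' * dc b0 g0 τ0 θ b' := by
        unfold fz; rw [if_neg hn]
      have f7 : dc b0 g0 τ0 θ b0 = 1 := by simp [dc]
      have f8 : ds b0 g0 θ b0 = 0 := by simp [ds]
      simp only [F, mk3_0, mk3_1, mk3_2, f1, f2, f3, f4, f5, f6, f7, f8, mul_zero, add_zero,
        zero_add, mul_one] at e0 e1 e2
      by_cases hbb : b' = b0
      · subst hbb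
        have hl : l = 0 := by
          have : l * Real.sin θ = 0 := by linarith
          exact (mul_eq_zero.1 this).resolve_right hθ
        rw [f7, f8] at e0
        apply hn
        refine ⟨rfl, ?_⟩
        linear_combination -e0
      · have hn1 := nu_pos (θ := θ) hg0 hbb
        have hn3 : nu b0 g0 θ b' ≠ 0 := hn1.ne'
        have hu := hunit b'
        have k1 : dc b0 g0 τ0 θ b' = - (τ0 * (b' - b0) * Real.cos θ) / nu b0 g0 θ b' := by
          simp [dc, hbb]
        have k2 : ds b0 g0 θ b' = g0 * Real.sin θ / nu b0 g0 θ b' := by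
          simp [ds, hbb]
        have k3 : g' = g0 * dc b0 g0 τ0 θ b' + l * (τ0 * Real.cos θ) * ds b0 g0 θ b' := by
          linear_combination - dc b0 g0 τ0 θ b' * e0 - ds b0 g0 θ b' * e2 - g' * hu
        have k4 : g' = 0 := by
          rw [k3, k1, k2]
          have : b' - b0 = l * Real.sin θ := by linarith
          rw [this]
          field_simp
          ring
        have k5 := hs' k4
        rw [k4, k5] at e0
        simp at e0
        exact hg0 e0
    intro b g l b' g' l' hs hs' h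
    by_cases h1 : b = b0 ∧ g = g0
    · by_cases h2 : b' = b0 ∧ g' = g0
      · obtain ⟨rfl, rfl⟩ := h1
        obtain ⟨rfl, rfl⟩ := h2
        refine ⟨rfl, rfl, ?_⟩
        have e1 := congrArg (fun z : E3 => z 1) h
        simp only [F, mk3_1, fy, and_self, if_true] at e1
        have : l * Real.sin θ = l' * Real.sin θ := by linarith
        exact mul_right_cancel₀ hθ this
      · obtain ⟨rfl, rfl⟩ := h1
        exact (special l b' g' l' h2 hs' h).elim
    · by_cases h2 : b' = b0 ∧ g' = g0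
      · obtain ⟨rfl, rfl⟩ := h2
        exact (special l' b g l h1 hs h.symm).elim
      · have e0 := congrArg (fun z : E3 => z 0) h
        have e1 := congrArg (fun z : E3 => z 1) h
        have e2 := congrArg (fun z : E3 => z 2) h
        simp only [F, mk3_0, mk3_1, mk3_2, fx, fy, fz, if_neg h1, if_neg h2, mul_zero,
          add_zero] at e0 e1 e2
        subst e1
        have hu := hunit b
        have e3 : g = g' := by
          linear_combination dc b0 g0 τ0 θ b * e0 + ds b0 g0 θ b * e2 - (g - g') * hu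
        subst e3
        have e4 : l * τ b g = l' * τ b g := by
          linear_combination dc b0 g0 τ0 θ b * e2 - ds b0 g0 θ b * e0
            - (l * τ b g - l' * τ b g) * hu
        refine ⟨rfl, rfl, ?_⟩
        linear_combination τ b g * e4 - (l - l') * hτ b g

end Pool.Agent.Run7.h544
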