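import Pool.Agent.Run7.h544.Flip

/-!
Every planar state of a tree with level coordinates is congruent to a flat state given by signs.
-/

set_option autoImplicit false

namespace Pool.Agent.Run7.h544

open Module

variable {n : ℕ} {G : SimpleGraph (Fin n)} {p : Fin n → E3} {β γ δ : Fin n → ℝ}

/-- A step towards the root. -/
lemma exists_parent (hG : G.Connected) {o v : Fin n} (h : v ≠ o) :
    ∃ u, G.Adj v u ∧ G.dist u o < G.dist v o := by
  obtain ⟨w, hw⟩ := hG.exists_walk_length_eq_dist v o
  cases w with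
  | nil => exact absurd rfl h
  | cons hadj q =>
    refine ⟨_, hadj, ?_⟩
    rw [← hw, SimpleGraph.Walk.length_cons]
    exact Nat.lt_succ_of_le (SimpleGraph.dist_le q)

/-- The vertices of a non-self-intersecting state of a connected graph are distinct points. -/
lemma injective_of_mem (hG : G.Connected) (hp : p ∈ FreeSpace G p)
    (hne : ∀ a b, G.Adj a b → p a ≠ p b) : Function.Injective p := by
  intro u v huv
  by_contra hne'
  obtain ⟨a, hua, -⟩ := exists_parent hG (o := v) (v := u) hne'
  obtain ⟨b, hvb, -⟩ := exists_parent hG (o := u) (v := v) (fun h => hne' h.symm)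
  by_cases hs : (u = v ∧ a = b) ∨ (u = b ∧ a = v)
  · rcases hs with ⟨h, -⟩ | ⟨-, h⟩
    · exact hne' h
    · subst h
      exact hne _ _ hua huv
  · obtain ⟨w, hw1, hw2, hw3⟩ := hp.2 u a v b hua hvb hs (p u)
      (left_mem_segment ℝ _ _) (by rw [huv]; exact left_mem_segment ℝ _ _)
    rcases hw1 with rfl | rfl
    · rcases hw2 with h | h
      · exact hne' h
      · subst h
        exact hne _ _ hvb huv.symm
    · exact hne _ _ hua hw3

/-- Propagation of a sign along a bar. -/
lemma bar_sign (d : Fin n → ℕ) (K : Fin n → Prop) (j : Fin n) (hj : K j)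
    (hpar : ∀ v, K v → v ≠ j → ∃ u, K u ∧ G.Adj v u ∧ d u < d v)
    (z Z W : Fin n → ℝ) (hz : ∀ u v, K u → K v → G.Adj u v → z u ≠ z v)
    (hW : ∀ u v, K u → K v → G.Adj u v → W u = W v)
    (hZ : ∀ u v w, K u → K v → K w → G.Adj u v → G.Adj u w →
      (Z v - Z u) * (Z w - Z u) = (z v - z u) * (z w - z u)) :
    ∃ s : ℝ, s ^ 2 = 1 ∧ ∀ v, K v → Z v - Z j = s * (z v - z j) ∧ W v = W j := by
  by_cases h : ∃ w, K w ∧ G.Adj j w
  · obtain ⟨w0, hw0, hjw0⟩ := h
    have hz0 : z w0 - z j ≠ 0 := sub_ne_zero.2 (hz j w0 hj hw0 hjw0).symm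
    refine ⟨(Z w0 - Z j) / (z w0 - z j), ?_, ?_⟩
    · rw [div_pow, div_eq_one_iff_eq (pow_ne_zero 2 hz0)]
      have := hZ j w0 w0 hj hw0 hw0 hjw0 hjw0
      linear_combination this
    · set s := (Z w0 - Z j) / (z w0 - z j) with hs
      have hs2 : s ^ 2 = 1 := by
        rw [hs, div_pow, div_eq_one_iff_eq (pow_ne_zero 2 hz0)]
        have := hZ j w0 w0 hj hw0 hw0 hjw0 hjw0
        linear_combination this
      have hs3 : Z w0 - Z j = s * (z w0 - z j) := by rw [hs]; field_simp
      have main : ∀ m : ℕ, ∀ v, d v = m → K v → (Z v - Z j = s * (z v - z j) ∧ W v = W j) ∧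
          ∀ w, K w → G.Adj v w → Z w - Z v = s * (z w - z v) := by
        intro m
        induction m using Nat.strong_induction_on with
        | _ m ih =>
          intro v hv hKv
          by_cases hvj : v = j
          · subst hvj
            refine ⟨⟨by simp, rfl⟩, ?_⟩
            intro w hw hvw
            have h1 := hZ v w0 w hKv hw0 hw hjw0 hvw
            rw [hs3] at h1
            have h2 : (z w0 - z v) * (s * (Z w - Z v)) = (z w0 - z v) * (z w - z v) := by
              linear_combination h1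
            have h3 := mul_left_cancel₀ hz0 h2
            linear_combination s * h3 - (Z w - Z v) * hs2
          · obtain ⟨u, hKu, hvu, hdu⟩ := hpar v hKv hvj
            obtain ⟨⟨i1, i2⟩, i3⟩ := ih (d u) (hv ▸ hdu) u rfl hKu
            have i4 := i3 v hKv hvu.symm
            have hz1 : z u - z v ≠ 0 := sub_ne_zero.2 (hz u v hKu hKv hvu.symm)
            refine ⟨⟨by linear_combination i1 + i4, ?_⟩, ?_⟩
            · rw [← i2]; exact hW v u hKv hKu hvu
            · intro w hw hvw
              have h1 := hZ v u w hKv hKu hw hvu hvw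
              have h2 : (z u - z v) * (s * (Z w - Z v)) = (z u - z v) * (z w - z v) := by
                linear_combination h1 + (Z w - Z v) * i4
              have h3 := mul_left_cancel₀ hz1 h2
              linear_combination s * h3 - (Z w - Z v) * hs2
      intro v hKv
      exact (main (d v) v rfl hKv).1
  · refine ⟨1, by norm_num, ?_⟩
    have main : ∀ m : ℕ, ∀ v, d v = m → K v → v = j := by
      intro m
      induction m using Nat.strong_induction_on with
      | _ m ih =>
        intro v hv hKv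
        by_contra hvj
        obtain ⟨u, hKu, hvu, hdu⟩ := hpar v hKv hvj
        have := ih (d u) (hv ▸ hdu) u rfl hKu
        subst this
        exact h ⟨v, hKv, hvu.symm⟩
    intro v hKv
    rw [main (d v) v rfl hKv]
    simp

section structure_lemmas

variable (hG : G.Connected) (hL : Levels G β γ δ) {o : Fin n} (ho : γ o = 0)

include hG hL ho

lemma foot_axis : ∀ m : ℕ, ∀ v, G.dist v o = m → γ v ≠ 0 →
    ∃ w, γ w = 0 ∧ β w = β v ∧ G.dist w o < G.dist v o := by
  intro m
  induction m using Nat.strong_induction_on with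
  | _ m ih =>
    intro v hv hγ
    have hvo : v ≠ o := by rintro rfl; exact hγ ho
    obtain ⟨u, hvu, hd⟩ := exists_parent hG hvo
    have hcase : β v = β u := by
      rcases hL.edge v u hvu with ⟨a1, a2⟩ | ⟨a1, a2, a3⟩ | ⟨a1, a2⟩
      · exact absurd a1 hγ
      · exact a1
      · exact a1
    by_cases hu : γ u = 0
    · exact ⟨u, hu, hcase.symm, hd⟩
    · obtain ⟨w, h1, h2, h3⟩ := ih (G.dist u o) (hv ▸ hd) u rfl hu
      exact ⟨w, h1, h2.trans hcase.symm, h3.trans hd⟩

lemma foot_spine : ∀ m : ℕ, ∀ v, G.dist v o = m → δ v ≠ 0 →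
    ∃ w, δ w = 0 ∧ β w = β v ∧ γ w = γ v ∧ G.dist w o < G.dist v o := by
  intro m
  induction m using Nat.strong_induction_on with
  | _ m ih =>
    intro v hv hδ
    have hvo : v ≠ o := by rintro rfl; exact hδ (hL.supp v ho)
    obtain ⟨u, hvu, hd⟩ := exists_parent hG hvo
    have hcase : β v = β u ∧ γ v = γ u := by
      rcases hL.edge v u hvu with ⟨a1, a2⟩ | ⟨a1, a2, a3⟩ | ⟨a1, a2⟩
      · exact absurd (hL.supp v a1) hδ
      · exact absurd a2 hδ
      · exact ⟨a1, a2⟩
    by_cases hu : δ u = 0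
    · exact ⟨u, hu, hcase.1.symm, hcase.2.symm, hd⟩
    · obtain ⟨w, h1, h2, h3, h4⟩ := ih (G.dist u o) (hv ▸ hd) u rfl hu
      exact ⟨w, h1, h2.trans hcase.1.symm, h3.trans hcase.2.symm, h4.trans hd⟩

end structure_lemmas

/-- Alignment of a link from an aligned link at the same vertex. -/
lemma align_core {dX dY dX' dY' dx dy dx' dy' : ℝ} (h1 : dX ^ 2 + dY ^ 2 = dx ^ 2 + dy ^ 2)
    (h2 : dX' ^ 2 + dY' ^ 2 = dx' ^ 2 + dy' ^ 2) (h3 : dX * dX' + dY * dY' = dx * dx' + dy * dy')
    (hx : dx = 0) (hX : dX = 0) (hy : dy ≠ 0) (t : dx' = 0 ∨ dy' = 0) :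
    (dx' = 0 → dX' = 0) ∧ (dy' = 0 → dY' = 0) := by
  subst hx hX
  have h4 : dY ^ 2 = dy ^ 2 := by linarith
  have h5 : dY * dY' = dy * dy' := by linarith
  have hY : dY ≠ 0 := by
    rintro rfl
    apply hy
    have : dy ^ 2 = 0 := by rw [← h4]; ring
    exact pow_eq_zero_iff (two_ne_zero) |>.1 this
  constructor
  · intro hx'
    subst hx'
    have h6 : dy ^ 2 * dY' ^ 2 = dy ^ 2 * dy' ^ 2 := by
      have : (dY * dY') ^ 2 = (dy * dy') ^ 2 := by rw [h5]
      rw [mul_pow, mul_pow, h4] at this
      exact this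
    have h7 := mul_left_cancel₀ (pow_ne_zero 2 hy) h6
    have h8 : dX' ^ 2 = 0 := by linarith
    exact pow_eq_zero_iff (two_ne_zero) |>.1 h8
  · intro hy'
    subst hy'
    rw [mul_zero] at h5
    exact (mul_eq_zero.1 h5).resolve_left hY

/-- Planar coordinates `X, Y` of a state `q` with one aligned link at `o`: signs. -/
theorem exists_signs (hG : G.Connected) (hL : Levels G β γ δ) {o : Fin n} (ho : γ o = 0)
    (hb : IsBase p β γ δ) (hp : p ∈ FreeSpace G p) (hne : ∀ a b, G.Adj a b → p a ≠ p b)
    (X Y : Fin n → ℝ) (hX : X o = 0) (hY : Y o = 0)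
    (hin : ∀ u v w, G.Adj u v → G.Adj u w →
      (X v - X u) * (X w - X u) + (Y v - Y u) * (Y w - Y u) =
      inner ℝ (p v - p u) (p w - p u))
    (hal : ∀ w, G.Adj o w → ∃ w', G.Adj o w' ∧ (γ o = γ w' → X o = X w') ∧
      (β o + δ o = β w' + δ w' → Y o = Y w')) :
    ∃ (s0 : ℝ) (σ : ℝ → ℝ) (τ : ℝ → ℝ → ℝ), s0 ^ 2 = 1 ∧ (∀ b, σ b ^ 2 = 1) ∧
      (∀ b g, τ b g ^ 2 = 1) ∧ ∀ v, X v = σ (β v) * γ v ∧
        Y v = s0 * (β v - β o) + τ (β v) (γ v) * δ v := by
  have hpin := injective_of_mem hG hp hne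
  -- inner products of the base state
  have hin' : ∀ u v w, G.Adj u v → G.Adj u w →
      (X v - X u) * (X w - X u) + (Y v - Y u) * (Y w - Y u) =
      (γ v - γ u) * (γ w - γ u) + ((β v + δ v) - (β u + δ u)) * ((β w + δ w) - (β u + δ u)) := by
    intro u v w huv huw
    rw [hin u v w huv huw, inner3, hb u, hb v, hb w]
    simp
  have hedge : ∀ u v, G.Adj u v → γ v - γ u = 0 ∨ (β v + δ v) - (β u + δ u) = 0 := by
    intro u v huv
    rcases hL.edge u v huv with ⟨a1, a2⟩ | ⟨a1, a2, a3⟩ | ⟨a1, a2⟩
    · left; linarith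
    · right; linarith
    · left; linarith
  have hnd : ∀ u v, G.Adj u v → ¬ (γ v - γ u = 0 ∧ (β v + δ v) - (β u + δ u) = 0) := by
    rintro u v huv ⟨h1, h2⟩
    apply hne u v huv
    rw [hb u, hb v]
    have e1 : γ v = γ u := by linarith
    have e2 : β v + δ v = β u + δ u := by linarith
    rw [e1, e2]
  -- alignment of all links
  have halign : ∀ u, ∀ v, G.Adj u v → (γ v - γ u = 0 → X v - X u = 0) ∧
      ((β v + δ v) - (β u + δ u) = 0 → Y v - Y u = 0) := by
    have step : ∀ u w, G.Adj u w → ((γ w - γ u = 0 → X w - X u = 0) ∧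
        ((β w + δ w) - (β u + δ u) = 0 → Y w - Y u = 0)) → ∀ v, G.Adj u v →
        (γ v - γ u = 0 → X v - X u = 0) ∧
        ((β v + δ v) - (β u + δ u) = 0 → Y v - Y u = 0) := by
      rintro u w huw ⟨g1, g2⟩ v huv
      have i1 := hin' u w w huw huw
      have i2 := hin' u v v huv huv
      have i3 := hin' u w v huw huv
      rcases hedge u w huw with h | h
      · have hy : (β w + δ w) - (β u + δ u) ≠ 0 := fun h' => hnd u w huw ⟨h, h'⟩
        exact align_core (dX := X w - X u) (dY := Y w - Y u) (dX' := X v - X u)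
          (dY' := Y v - Y u) (dx := γ w - γ u) (dy := (β w + δ w) - (β u + δ u))
          (dx' := γ v - γ u) (dy' := (β v + δ v) - (β u + δ u)) (by linear_combination i1)
          (by linear_combination i2) (by linear_combination i3) h (g1 h) hy (hedge u v huv)
      · have hx : γ w - γ u ≠ 0 := fun h' => hnd u w huw ⟨h', h⟩
        have := align_core (dX := Y w - Y u) (dY := X w - X u) (dX' := Y v - Y u)
          (dY' := X v - X u) (dx := (β w + δ w) - (β u + δ u)) (dy := γ w - γ u)
          (dx' := (β v + δ v) - (β u + δ u)) (dy' := γ v - γ u) (by linear_combination i1)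
          (by linear_combination i2) (by linear_combination i3) h (g2 h) hx (hedge u v huv).symm
        exact ⟨this.2, this.1⟩
    have main : ∀ m : ℕ, ∀ u, G.dist u o = m → ∀ v, G.Adj u v →
        (γ v - γ u = 0 → X v - X u = 0) ∧
        ((β v + δ v) - (β u + δ u) = 0 → Y v - Y u = 0) := by
      intro m
      induction m using Nat.strong_induction_on with
      | _ m ih =>
        intro u hu v huv
        by_cases huo : u = o
        · subst huo
          obtain ⟨w', h1, h2, h3⟩ := hal v huv
          refine step u w' h1 ⟨fun h => ?_, fun h => ?_⟩ v huv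
          · have := h2 (by linarith); linarith
          · have := h3 (by linarith); linarith
        · obtain ⟨w, huw, hd⟩ := exists_parent hG huo
          obtain ⟨h1, h2⟩ := ih (G.dist w o) (hu ▸ hd) w rfl u huw.symm
          refine step u w huw ⟨fun h => ?_, fun h => ?_⟩ v huv
          · have := h1 (by linarith); linarith
          · have := h2 (by linarith); linarith
    exact fun u => main _ u rfl
  -- level 0
  have hpar0 : ∀ v, γ v = 0 → v ≠ o → ∃ u, γ u = 0 ∧ G.Adj v u ∧ G.dist u o < G.dist v o := by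
    intro v hv hvo
    obtain ⟨u, hvu, hd⟩ := exists_parent hG hvo
    refine ⟨u, ?_, hvu, hd⟩
    by_contra hu
    obtain ⟨w, h1, h2, h3⟩ := foot_axis hG hL ho _ u rfl hu
    have hβ : β v = β u := by
      rcases hL.edge v u hvu with ⟨a1, a2⟩ | ⟨a1, a2, a3⟩ | ⟨a1, a2⟩
      · exact absurd a2 hu
      · exact a1
      · exact a1
    have : w = v := by
      apply hpin
      rw [hb w, hb v, h1, hv, h2, hβ, hL.supp w h1, hL.supp v hv]
    rw [this] at h3
    omega
  obtain ⟨s0, hs0, hax⟩ := bar_sign (G := G) (fun v => G.dist v o) (fun v => γ v = 0) o ho hpar0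
    β Y X (by
      intro u v hu hv huv h
      have d1 := hL.supp u hu
      have d2 := hL.supp v hv
      exact hnd u v huv ⟨by linarith, by linarith⟩)
    (by
      intro u v hu hv huv
      have := (halign u v huv).1 (by rw [hu, hv]; ring)
      linarith)
    (by
      intro u v w hu hv hw huv huw
      have d1 := hL.supp u hu
      have d2 := hL.supp v hv
      have d3 := hL.supp w hw
      have i := hin' u v w huv huw
      have j1 := (halign u v huv).1 (by rw [hu, hv]; ring)
      rw [j1, hu, hv, hw, d1, d2, d3] at i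
      linear_combination i)
  rw [hX, hY] at hax
  -- level 1
  have lev1 : ∀ b : ℝ, ∃ s : ℝ, s ^ 2 = 1 ∧ ∀ v, β v = b → δ v = 0 →
      X v = s * γ v ∧ Y v = s0 * (b - β o) := by
    intro b
    by_cases hex : ∃ j, γ j = 0 ∧ β j = b
    · obtain ⟨j, hj, hjb⟩ := hex
      obtain ⟨s, hs, hall⟩ := bar_sign (G := G) (fun v => G.dist v o)
        (fun v => β v = b ∧ δ v = 0) j ⟨hjb, hL.supp j hj⟩ (by
          rintro v ⟨hv1, hv2⟩ hvj
          have hγv : γ v ≠ 0 := by
            intro h
            apply hvj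
            apply hpin
            rw [hb v, hb j, h, hj, hv1, hjb, hv2, hL.supp j hj]
          have hvo : v ≠ o := by rintro rfl; exact hγv ho
          obtain ⟨u, hvu, hd⟩ := exists_parent hG hvo
          have hβ : β v = β u := by
            rcases hL.edge v u hvu with ⟨a1, a2⟩ | ⟨a1, a2, a3⟩ | ⟨a1, a2⟩
            · exact absurd a1 hγv
            · exact a1
            · exact a1
          refine ⟨u, ⟨hβ ▸ hv1, ?_⟩, hvu, hd⟩
          by_contra hδ
          obtain ⟨w, h1, h2, h3, h4⟩ := foot_spine hG hL ho _ u rfl hδ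
          have hγ : γ v = γ u := by
            rcases hL.edge v u hvu with ⟨a1, a2⟩ | ⟨a1, a2, a3⟩ | ⟨a1, a2⟩
            · exact absurd a1 hγv
            · exact absurd a3 hδ
            · exact a2
          have : w = v := by
            apply hpin
            rw [hb w, hb v, h1, h2, h3, hv2, hβ, hγ]
          rw [this] at h4
          omega)
        γ X Y (by
          rintro u v ⟨hu1, hu2⟩ ⟨hv1, hv2⟩ huv h
          exact hnd u v huv ⟨by linarith, by linarith⟩)
        (by
          rintro u v ⟨hu1, hu2⟩ ⟨hv1, hv2⟩ huv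
          have := (halign u v huv).2 (by linarith)
          linarith)
        (by
          rintro u v w ⟨hu1, hu2⟩ ⟨hv1, hv2⟩ ⟨hw1, hw2⟩ huv huw
          have i := hin' u v w huv huw
          have j1 := (halign u v huv).2 (by linarith)
          have j2 : (β v + δ v) - (β u + δ u) = 0 := by linarith
          rw [j1, j2] at i
          linear_combination i)
      refine ⟨s, hs, fun v hv1 hv2 => ?_⟩
      obtain ⟨k1, k2⟩ := hall v ⟨hv1, hv2⟩
      obtain ⟨k3, k4⟩ := hax j hj
      rw [hj, k4] at k1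
      rw [hjb] at k3
      constructor
      · linarith
      · linarith
    · refine ⟨1, by norm_num, fun v hv1 hv2 => ?_⟩
      exfalso
      apply hex
      by_cases hγv : γ v = 0
      · exact ⟨v, hγv, hv1⟩
      · obtain ⟨w, h1, h2, -⟩ := foot_axis hG hL ho _ v rfl hγv
        exact ⟨w, h1, h2.trans hv1⟩
  choose σ hσ hσ' using lev1
  -- level 2
  have lev2 : ∀ b g : ℝ, ∃ s : ℝ, s ^ 2 = 1 ∧ ∀ v, β v = b → γ v = g →
      X v = σ b * g ∧ Y v = s0 * (b - β o) + s * δ v := by
    intro b g
    by_cases hex : ∃ j, β j = b ∧ γ j = g ∧ δ j = 0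
    · obtain ⟨j, hj1, hj2, hj3⟩ := hex
      obtain ⟨s, hs, hall⟩ := bar_sign (G := G) (fun v => G.dist v o)
        (fun v => β v = b ∧ γ v = g) j ⟨hj1, hj2⟩ (by
          rintro v ⟨hv1, hv2⟩ hvj
          have hδv : δ v ≠ 0 := by
            intro h
            apply hvj
            apply hpin
            rw [hb v, hb j, hv1, hv2, h, hj1, hj2, hj3]
          have hvo : v ≠ o := by rintro rfl; exact hδv (hL.supp v ho)
          obtain ⟨u, hvu, hd⟩ := exists_parent hG hvo
          have hβγ : β v = β u ∧ γ v = γ u := by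
            rcases hL.edge v u hvu with ⟨a1, a2⟩ | ⟨a1, a2, a3⟩ | ⟨a1, a2⟩
            · exact absurd (hL.supp v a1) hδv
            · exact absurd a2 hδv
            · exact ⟨a1, a2⟩
          exact ⟨u, ⟨hβγ.1 ▸ hv1, hβγ.2 ▸ hv2⟩, hvu, hd⟩)
        δ Y X (by
          rintro u v ⟨hu1, hu2⟩ ⟨hv1, hv2⟩ huv h
          exact hnd u v huv ⟨by linarith, by linarith⟩)
        (by
          rintro u v ⟨hu1, hu2⟩ ⟨hv1, hv2⟩ huv
          have := (halign u v huv).1 (by linarith)
          linarith)
        (by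
          rintro u v w ⟨hu1, hu2⟩ ⟨hv1, hv2⟩ ⟨hw1, hw2⟩ huv huw
          have i := hin' u v w huv huw
          have j1 := (halign u v huv).1 (by linarith)
          have j2 : γ v - γ u = 0 := by linarith
          rw [j1, j2, hu1, hv1, hw1] at i
          linear_combination i)
      refine ⟨s, hs, fun v hv1 hv2 => ?_⟩
      obtain ⟨k1, k2⟩ := hall v ⟨hv1, hv2⟩
      obtain ⟨k3, k4⟩ := hσ' b j hj1 hj3
      rw [hj2] at k3
      rw [hj3] at k1
      constructor
      · rw [k2, k3]
      · linarith
    · refine ⟨1, by norm_num, fun v hv1 hv2 => ?_⟩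
      exfalso
      apply hex
      by_cases hδv : δ v = 0
      · exact ⟨v, hv1, hv2, hδv⟩
      · obtain ⟨w, h1, h2, h3, -⟩ := foot_spine hG hL ho _ v rfl hδv
        exact ⟨w, h2.trans hv1, h3.trans hv2, h1⟩
  choose τ hτ hτ' using lev2
  exact ⟨s0, σ, τ, hs0, hσ, hτ, fun v => hτ' (β v) (γ v) v rfl rfl⟩

end Pool.Agent.Run7.h544
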