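import Pool.Agent.Run7.h544.Rigid

/-!
Two flat states with the same projection to a line of their common plane are joined.
-/

set_option autoImplicit false

namespace Pool.Agent.Run7.h544

variable {n : ℕ} {G : SimpleGraph (Fin n)} {p : Fin n → E3}

lemma freeSpace_congr {p p' : Fin n → E3}
    (h : ∀ u v w, G.Adj u v → G.Adj u w →
      inner ℝ (p' v - p' u) (p' w - p' u) = inner ℝ (p v - p u) (p w - p u)) :
    FreeSpace G p' = FreeSpace G p := by
  ext r
  constructor
  · rintro ⟨h1, h2⟩
    exact ⟨fun u v w huv huw => (h1 u v w huv huw).trans (h u v w huv huw), h2⟩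
  · rintro ⟨h1, h2⟩
    exact ⟨fun u v w huv huw => (h1 u v w huv huw).trans (h u v w huv huw).symm, h2⟩

/-- Core form in coordinates: `q` lies in the free space of `p`, both in the plane `z = 0`, with the
same first coordinates. -/
theorem joinedIn_same_x {q : Fin n → E3} (hne : ∀ a b, G.Adj a b → p a ≠ p b)
    (hp : p ∈ FreeSpace G p) (hq : q ∈ FreeSpace G p) (hp2 : ∀ v, p v 2 = 0) (hq2 : ∀ v, q v 2 = 0)
    (hx : ∀ v, p v 0 = q v 0) : JoinedIn (FreeSpace G p) p q := by
  set A : Fin n → ℝ := fun v => (p v 1 + q v 1) / 2 with hA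
  set B : Fin n → ℝ := fun v => (p v 1 - q v 1) / 2 with hB
  refine joinedIn_of_path (fun t v => mk3 (p v 0) (A v + B v * Real.cos (Real.pi * t))
    (B v * Real.sin (Real.pi * t))) ?_ ?_ ?_ ?_
  · intro v
    unfold mk3
    fun_prop
  · ext v : 1
    apply ext3
    · simp
    · simp only [mk3_1, mul_zero, Real.cos_zero, mul_one, hA, hB]; ring
    · simp [hp2]
  · ext v : 1
    apply ext3
    · simp [hx]
    · simp only [mk3_1, mul_one, Real.cos_pi, hA, hB]; ring
    · simp [hq2]
  · intro t ht0 ht1
    rcases eq_or_lt_of_le ht0 with rfl | ht0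
    · have : (fun v => mk3 (p v 0) (A v + B v * Real.cos (Real.pi * 0))
          (B v * Real.sin (Real.pi * 0))) = p := by
        ext v : 1
        apply ext3
        · simp
        · simp only [mk3_1, mul_zero, Real.cos_zero, mul_one, hA, hB]; ring
        · simp [hp2]
      show (fun v => mk3 (p v 0) (A v + B v * Real.cos (Real.pi * 0))
          (B v * Real.sin (Real.pi * 0))) ∈ _
      rw [this]; exact hp
    rcases eq_or_lt_of_le ht1 with rfl | ht1
    · have : (fun v => mk3 (p v 0) (A v + B v * Real.cos (Real.pi * 1))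
          (B v * Real.sin (Real.pi * 1))) = q := by
        ext v : 1
        apply ext3
        · simp [hx]
        · simp only [mk3_1, mul_one, Real.cos_pi, hA, hB]; ring
        · simp [hq2]
      show (fun v => mk3 (p v 0) (A v + B v * Real.cos (Real.pi * 1))
          (B v * Real.sin (Real.pi * 1))) ∈ _
      rw [this]; exact hq
    have hsin : Real.sin (Real.pi * t) ≠ 0 := by
      apply ne_of_gt
      apply Real.sin_pos_of_pos_of_lt_pi
      · positivity
      · nlinarith [Real.pi_pos]
    have hcs := Real.sin_sq_add_cos_sq (Real.pi * t)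
    set c := Real.cos (Real.pi * t) with hc
    set s := Real.sin (Real.pi * t) with hs
    refine mem_freeSpace hp hne ?_ ?_
    · intro u v w huv huw
      have h := hq.1 u v w huv huw
      simp only [inner3, PiLp.sub_apply, mk3_0, mk3_1, mk3_2, hp2, hq2, hx, hA, hB] at h ⊢
      linear_combination (1/2 : ℝ) * (1 - c) * h
        + (1/4 : ℝ) * ((p v 1 - q v 1) - (p u 1 - q u 1)) * ((p w 1 - q w 1) - (p u 1 - q u 1)) * hcs
    · intro a b c' d _ _ s1 t1 s2 t2 _ _ _ _ _ _ h
      have e0 := congrArg (fun z : E3 => z 0) h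
      have e1 := congrArg (fun z : E3 => z 1) h
      have e2 := congrArg (fun z : E3 => z 2) h
      simp only [PiLp.add_apply, PiLp.smul_apply, smul_eq_mul, mk3_0, mk3_1, mk3_2] at e0 e1 e2
      have eB : s1 * B a + t1 * B b = s2 * B c' + t2 * B d := by
        have : s * (s1 * B a + t1 * B b) = s * (s2 * B c' + t2 * B d) := by linarith
        exact mul_left_cancel₀ hsin this
      have eA : s1 * A a + t1 * A b = s2 * A c' + t2 * A d := by
        linear_combination e1 - c * eB
      apply ext3
      · simp only [PiLp.add_apply, PiLp.smul_apply, smul_eq_mul]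
        exact e0
      · simp only [PiLp.add_apply, PiLp.smul_apply, smul_eq_mul]
        have : ∀ v, p v 1 = A v + B v := by intro v; simp only [hA, hB]; ring
        rw [this a, this b, this c', this d]
        linear_combination eA + eB
      · simp [hp2]

/-- Affine isometries as linear isometry plus translation. -/
lemma isometry_apply (f : E3 ≃ᵢ E3) (x : E3) : f x = f.toRealLinearIsometryEquiv x + f 0 := by
  rw [IsometryEquiv.toRealLinearIsometryEquiv_apply]
  abel

lemma inner_isometry (f : E3 ≃ᵢ E3) (x y z : E3) :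
    inner ℝ (f x - f z) (f y - f z) = inner ℝ (x - z) (y - z) := by
  rw [isometry_apply f x, isometry_apply f y, isometry_apply f z, add_sub_add_right_eq_sub,
    add_sub_add_right_eq_sub, ← map_sub, ← map_sub, LinearIsometryEquiv.inner_map_map]

/-- A placement with a planar image under an isometry is planar. -/
lemma planar_of_isometry (f : E3 ≃ᵢ E3) {r : Fin n → E3} (h : ∀ v, f (r v) 2 = 0) :
    ∃ N : E3, N ≠ 0 ∧ ∃ κ : ℝ, ∀ v, inner ℝ N (r v) = κ := by
  set L := f.toRealLinearIsometryEquiv with hL
  refine ⟨L.symm (mk3 0 0 1), ?_, - (f 0) 2, ?_⟩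
  · intro h0
    have : mk3 0 0 1 = 0 := by
      have := congrArg L h0
      simpa using this
    have := congrArg (fun z : E3 => z 2) this
    simp at this
  · intro v
    have h1 := h v
    rw [isometry_apply] at h1
    rw [← LinearIsometryEquiv.inner_map_map L, LinearIsometryEquiv.apply_symm_apply, inner3]
    simp only [mk3_0, mk3_1, mk3_2, PiLp.add_apply] at h1 ⊢
    linarith

theorem joinedIn_isometryEquiv {r : Fin n → E3} (hr : r ∈ FreeSpace G p) (f g : E3 ≃ᵢ E3)
    (hg : ∀ v, g (r v) 2 = 0) : JoinedIn (FreeSpace G p) r (fun v => f (r v)) := by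
  obtain ⟨N, hN, κ, hκ⟩ := planar_of_isometry g hg
  have := joinedIn_isometry hr hN κ hκ f.toRealLinearIsometryEquiv (f 0)
  simpa only [← isometry_apply] using this

/-- Two flat states which, up to congruence, lie in one plane and have the same projection to a
line of this plane, are joined in the free space. -/
theorem joinedIn_same_projection {q : Fin n → E3} (hne : ∀ a b, G.Adj a b → p a ≠ p b)
    (hp : p ∈ FreeSpace G p) (hq : q ∈ FreeSpace G p) (f g : E3 ≃ᵢ E3)
    (hf : ∀ v, f (p v) 2 = 0) (hg : ∀ v, g (q v) 2 = 0) (hx : ∀ v, f (p v) 0 = g (q v) 0) :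
    JoinedIn (FreeSpace G p) p q := by
  have h1 := joinedIn_isometryEquiv hp f f hf
  have h2 := joinedIn_isometryEquiv hq g g hg
  have hS : FreeSpace G (fun v => f (p v)) = FreeSpace G p :=
    freeSpace_congr (fun u v w _ _ => inner_isometry f _ _ _)
  have h3 : JoinedIn (FreeSpace G (fun v => f (p v))) (fun v => f (p v)) (fun v => g (q v)) := by
    refine joinedIn_same_x ?_ ?_ ?_ hf hg hx
    · intro a b hab h
      exact hne a b hab (f.injective h)
    · rw [hS]; exact h1.target_mem
    · rw [hS]; exact h2.target_mem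
  rw [hS] at h3
  exact (h1.trans h3).trans h2.symm

end Pool.Agent.Run7.h544
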