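import Pool.Agent.Run7.h544.Basic

/-!
A planar placement can be moved rigidly, inside the free space, onto each congruent placement.
-/

set_option autoImplicit false

namespace Pool.Agent.Run7.h544

open Module

/-- The reflection in the plane orthogonal to `u` (the identity for `u = 0`). -/
noncomputable def refl (u : E3) : E3 →ₗ[ℝ] E3 where
  toFun x := x - (2 * (inner ℝ u x / inner ℝ u u)) • u
  map_add' x y := by
    rw [inner_add_right, add_div, mul_add, add_smul]; abel
  map_smul' c x := by
    simp only [inner_smul_right, RingHom.id_apply, smul_sub, smul_smul]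
    congr 2
    ring

lemma refl_apply (u x : E3) : refl u x = x - (2 * (inner ℝ u x / inner ℝ u u)) • u := rfl

lemma inner_refl (u x y : E3) : inner ℝ (refl u x) (refl u y) = inner ℝ x y := by
  rw [refl_apply, refl_apply]
  by_cases hu : u = 0
  · simp [hu]
  · have h : inner ℝ u u ≠ 0 := by
      intro h
      exact hu (inner_self_eq_zero.1 h)
    rw [inner_sub_left, inner_sub_right, inner_sub_right, inner_smul_left, inner_smul_right,
      inner_smul_left, inner_smul_right, real_inner_comm x u]
    simp only [conj_trivial]
    field_simp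
    ring

lemma refl_refl (u x : E3) : refl u (refl u x) = x := by
  by_cases hu : u = 0
  · simp [refl_apply, hu]
  · have h : inner ℝ u u ≠ 0 := by
      intro h
      exact hu (inner_self_eq_zero.1 h)
    rw [refl_apply u (refl u x), refl_apply u x, inner_sub_right, inner_smul_right]
    have : inner ℝ u x - 2 * (inner ℝ u x / inner ℝ u u) * inner ℝ u u = - inner ℝ u x := by
      field_simp; ring
    rw [this, sub_sub, ← add_smul]
    have : 2 * (inner ℝ u x / inner ℝ u u) + 2 * (-inner ℝ u x / inner ℝ u u) = 0 := by ring
    rw [this, zero_smul, sub_zero]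

lemma refl_eq (u x : E3) : (Submodule.reflection (Submodule.span ℝ {u})ᗮ) x = refl u x := by
  rw [Submodule.reflection_orthogonal_apply, Submodule.reflection_singleton_apply, refl_apply,
    real_inner_self_eq_norm_sq, neg_sub]
  congr 1
  rw [two_nsmul, ← add_smul]
  congr 1
  simp
  ring

variable {n : ℕ} {G : SimpleGraph (Fin n)} {p : Fin n → E3}

theorem joinedIn_translate {r : Fin n → E3} (hr : r ∈ FreeSpace G p) (c : E3) :
    JoinedIn (FreeSpace G p) r (fun v => r v + c) := by
  refine joinedIn_of_path (fun t v => r v + t • c) ?_ ?_ ?_ ?_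
  · intro v; fun_prop
  · ext v; simp
  · ext v; simp
  · intro t _ _
    exact freeSpace_isometry hr LinearMap.id (fun _ _ => rfl) (t • c)

theorem joinedIn_refl2 {r : Fin n → E3} (hr : r ∈ FreeSpace G p) {u w : E3} (hu : u ≠ 0)
    (hw : w ≠ 0) : JoinedIn (FreeSpace G p) r (fun v => refl u (refl w (r v))) := by
  have hrank : 1 < Module.rank ℝ E3 := by
    rw [← Module.finrank_eq_rank, finrank_euclideanSpace_fin]
    norm_num
  obtain ⟨γ, hγ⟩ := (isPathConnected_compl_singleton_of_one_lt_rank hrank (0 : E3)).joinedIn
    w hw u hu
  have hc : ∀ v, Continuous fun t : unitInterval => refl (γ t) (refl w (r v)) := by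
    intro v
    have hne : ∀ t : unitInterval, inner ℝ (γ t) (γ t) ≠ 0 := by
      intro t h
      exact hγ t (inner_self_eq_zero.1 h)
    have hcγ : Continuous fun t : unitInterval => γ t := γ.continuous
    simp only [refl_apply (γ _)]
    have h1 : Continuous fun t : unitInterval => inner ℝ (γ t) (refl w (r v)) :=
      hcγ.inner continuous_const
    have h2 : Continuous fun t : unitInterval => inner ℝ (γ t) (γ t) := hcγ.inner hcγ
    exact continuous_const.sub ((continuous_const.mul (h1.div h2 hne)).smul hcγ)
  refine ⟨⟨⟨fun t v => refl (γ t) (refl w (r v)), continuous_pi hc⟩, ?_, ?_⟩, ?_⟩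
  · ext v : 1
    simp [refl_refl]
  · ext v : 1
    simp
  · intro t
    have h := freeSpace_isometry hr ((refl (γ t)).comp (refl w))
      (fun x y => by simp [inner_refl]) 0
    simpa using h

/-- Composition of the reflections of a list. -/
noncomputable def comp : List E3 → E3 → E3
  | [], x => x
  | u :: l, x => refl u (comp l x)

lemma comp_append (l l' : List E3) (x : E3) : comp (l ++ l') x = comp l (comp l' x) := by
  induction l with
  | nil => rfl
  | cons u l ih => simp only [List.cons_append, comp, ih]

lemma comp_sub (l : List E3) (x y : E3) : comp l (x - y) = comp l x - comp l y := by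
  induction l with
  | nil => rfl
  | cons u l ih => simp only [comp, ih, map_sub]

theorem joinedIn_comp (m : ℕ) : ∀ l : List E3, l.length = 2 * m → (∀ u ∈ l, u ≠ 0) →
    ∀ r ∈ FreeSpace G p, JoinedIn (FreeSpace G p) r (fun v => comp l (r v)) := by
  induction m with
  | zero =>
    intro l hl _ r hr
    have : l = [] := List.length_eq_zero_iff.1 (by simpa using hl)
    subst this
    exact JoinedIn.refl hr
  | succ m ih =>
    intro l hl hne r hr
    match l, hl, hne with
    | [], hl, _ => simp at hl
    | [_], hl, _ => simp at hl; omega
    | u :: w :: l, hl, hne =>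
      have h1 : l.length = 2 * m := by simp at hl; omega
      have h2 := ih l h1 (fun x hx => hne x (by simp [hx])) r hr
      have h3 := joinedIn_refl2 h2.target_mem (hne u (by simp)) (hne w (by simp))
      exact h2.trans h3

lemma exists_list (f : E3 ≃ₗᵢ[ℝ] E3) : ∃ l : List E3, (∀ u ∈ l, u ≠ 0) ∧ ∀ x, f x = comp l x := by
  obtain ⟨l, -, rfl⟩ := f.reflections_generate_dim
  induction l with
  | nil => exact ⟨[], by simp, fun x => rfl⟩
  | cons u l ih =>
    obtain ⟨l', h1, h2⟩ := ih
    by_cases hu : u = 0
    · refine ⟨l', h1, fun x => ?_⟩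
      rw [List.map_cons, List.prod_cons, LinearIsometryEquiv.coe_mul, Function.comp_apply, h2,
        refl_eq, hu]
      simp [refl_apply]
    · refine ⟨u :: l', ?_, fun x => ?_⟩
      · intro w hw
        rcases List.mem_cons.1 hw with rfl | hw
        · exact hu
        · exact h1 w hw
      · rw [List.map_cons, List.prod_cons, LinearIsometryEquiv.coe_mul, Function.comp_apply, h2,
          refl_eq]
        rfl

/-- A planar placement is joined to each of its images under affine isometries. -/
theorem joinedIn_isometry {r : Fin n → E3} (hr : r ∈ FreeSpace G p) {N : E3} (hN : N ≠ 0)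
    (κ : ℝ) (hplane : ∀ v, inner ℝ N (r v) = κ) (f : E3 ≃ₗᵢ[ℝ] E3) (c : E3) :
    JoinedIn (FreeSpace G p) r (fun v => f (r v) + c) := by
  obtain ⟨l, hl, hf⟩ := exists_list f
  simp only [hf]
  rcases Nat.even_or_odd' l.length with ⟨m, hm | hm⟩
  · have h := joinedIn_comp m l hm hl r hr
    exact h.trans (joinedIn_translate h.target_mem c)
  · set d : E3 := (2 * (κ / inner ℝ N N)) • N with hd
    have key : ∀ v, comp l (r v) = comp (l ++ [N]) (r v) + comp l d := by
      intro v
      rw [comp_append]
      have : comp [N] (r v) = r v - d := by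
        simp only [comp, refl_apply, hplane, hd]
      rw [this, comp_sub]
      abel
    have h := joinedIn_comp (m + 1) (l ++ [N]) (by simp [hm]; ring) (by
      intro u hu
      rcases List.mem_append.1 hu with hu | hu
      · exact hl u hu
      · rw [List.mem_singleton.1 hu]; exact hN) r hr
    have h2 := h.trans (joinedIn_translate h.target_mem (comp l d + c))
    have e : (fun v => comp l (r v) + c) = fun v => comp (l ++ [N]) (r v) + (comp l d + c) := by
      ext v : 1
      rw [key]
      abel
    rw [e]
    exact h2

end Pool.Agent.Run7.h544
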