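import Pool.Agent.Run7.h544.Projection

/-!
Trees all of whose links are reached from an axis by at most two turns: levels, general states and
the motions between them.
-/

set_option autoImplicit false

namespace Pool.Agent.Run7.h544

variable {n : ℕ} {G : SimpleGraph (Fin n)} {p : Fin n → E3}

/-- Level coordinates: `β` along the axis, `γ` orthogonal to it, `δ` parallel to it again. -/
structure Levels (G : SimpleGraph (Fin n)) (β γ δ : Fin n → ℝ) : Prop where
  supp : ∀ v, γ v = 0 → δ v = 0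
  edge : ∀ a b, G.Adj a b → (γ a = 0 ∧ γ b = 0) ∨ (β a = β b ∧ δ a = 0 ∧ δ b = 0) ∨
    (β a = β b ∧ γ a = γ b)

/-- The three coordinates of a general state at the level point `(b, g, l)`; `c, s` give the
direction of the perpendicular bar at height `b`, `ex, ey, ez` that of the last bar at `(b, g)`. -/
noncomputable def F (c s : ℝ → ℝ) (ex ey ez : ℝ → ℝ → ℝ) (b g l : ℝ) : E3 :=
  mk3 (g * c b + l * ex b g) (b + l * ey b g) (g * s b + l * ez b g)

lemma F_zero (c s : ℝ → ℝ) (ex ey ez : ℝ → ℝ → ℝ) (b : ℝ) :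
    F c s ex ey ez b 0 0 = mk3 0 b 0 := by
  simp [F]

variable {β γ δ : Fin n → ℝ}

lemma inner_F (hL : Levels G β γ δ) {c s : ℝ → ℝ} {ex ey ez : ℝ → ℝ → ℝ}
    (h1 : ∀ b, c b ^ 2 + s b ^ 2 = 1)
    (h2 : ∀ b g, ex b g ^ 2 + ey b g ^ 2 + ez b g ^ 2 = 1)
    (h3 : ∀ b g, c b * ex b g + s b * ez b g = 0) {u v w : Fin n} (huv : G.Adj u v)
    (huw : G.Adj u w) :
    inner ℝ (F c s ex ey ez (β v) (γ v) (δ v) - F c s ex ey ez (β u) (γ u) (δ u))
      (F c s ex ey ez (β w) (γ w) (δ w) - F c s ex ey ez (β u) (γ u) (δ u)) =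
      (β v - β u) * (β w - β u) + (γ v - γ u) * (γ w - γ u) + (δ v - δ u) * (δ w - δ u) := by
  rw [inner3]
  simp only [F, PiLp.sub_apply, mk3_0, mk3_1, mk3_2]
  rcases hL.edge u v huv with ⟨a1, a2⟩ | ⟨a1, a2, a3⟩ | ⟨a1, a2⟩
  · have a3 := hL.supp u a1
    have a4 := hL.supp v a2
    rcases hL.edge u w huw with ⟨b1, b2⟩ | ⟨b1, b2, b3⟩ | ⟨b1, b2⟩
    · have b3 := hL.supp w b2
      simp only [a1, a2, a3, a4, b2, b3]
      ring
    · simp only [a1, a2, a3, a4, ← b1, b3]
      ring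
    · have b3 : γ w = 0 := by rw [← b2, a1]
      have b4 := hL.supp w b3
      simp only [a1, a2, a3, a4, ← b1, b3, b4]
      ring
  · rcases hL.edge u w huw with ⟨b1, b2⟩ | ⟨b1, b2, b3⟩ | ⟨b1, b2⟩
    · have b3 := hL.supp w b2
      simp only [← a1, a2, a3, b1, b2, b3]
      ring
    · simp only [← a1, a2, a3, ← b1, b3]
      linear_combination (γ v - γ u) * (γ w - γ u) * h1 (β u)
    · simp only [← a1, a2, a3, ← b1, ← b2]
      linear_combination (γ v - γ u) * (δ w) * h3 (β u) (γ u)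
  · rcases hL.edge u w huw with ⟨b1, b2⟩ | ⟨b1, b2, b3⟩ | ⟨b1, b2⟩
    · have b3 := hL.supp w b2
      have a3 : γ v = 0 := by rw [← a2, b1]
      have a4 := hL.supp v a3
      have a5 := hL.supp u b1
      simp only [← a1, a3, a4, a5, b1, b2, b3]
      ring
    · simp only [← a1, ← a2, ← b1, b2, b3]
      linear_combination (γ w - γ u) * (δ v) * h3 (β u) (γ u)
    · simp only [← a1, ← a2, ← b1, ← b2]
      linear_combination (δ v - δ u) * (δ w - δ u) * h2 (β u) (γ u)

lemma point_F (hL : Levels G β γ δ) (c s : ℝ → ℝ) (ex ey ez : ℝ → ℝ → ℝ) {a b : Fin n}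
    (hab : G.Adj a b) {x y : ℝ} (hxy : x + y = 1) :
    x • F c s ex ey ez (β a) (γ a) (δ a) + y • F c s ex ey ez (β b) (γ b) (δ b) =
      F c s ex ey ez (x * β a + y * β b) (x * γ a + y * γ b) (x * δ a + y * δ b) := by
  rcases hL.edge a b hab with ⟨a1, a2⟩ | ⟨a1, a2, a3⟩ | ⟨a1, a2⟩
  · have a3 := hL.supp a a1
    have a4 := hL.supp b a2
    apply ext3 <;> simp [F, a1, a2, a3, a4]
  · have e : x * β a + y * β b = β a := by rw [← a1]; linear_combination (β a) * hxy
    rw [e, ← a1]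
    apply ext3
    · simp only [F, a2, a3, PiLp.add_apply, PiLp.smul_apply, smul_eq_mul, mk3_0]; ring
    · simp only [F, a2, a3, PiLp.add_apply, PiLp.smul_apply, smul_eq_mul, mk3_1]
      linear_combination (β a) * hxy
    · simp only [F, a2, a3, PiLp.add_apply, PiLp.smul_apply, smul_eq_mul, mk3_2]; ring
  · have e : x * β a + y * β b = β a := by rw [← a1]; linear_combination (β a) * hxy
    have e' : x * γ a + y * γ b = γ a := by rw [← a2]; linear_combination (γ a) * hxy
    rw [e, e', ← a1, ← a2]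
    apply ext3
    · simp only [F, PiLp.add_apply, PiLp.smul_apply, smul_eq_mul, mk3_0]
      linear_combination (γ a * c (β a)) * hxy
    · simp only [F, PiLp.add_apply, PiLp.smul_apply, smul_eq_mul, mk3_1]
      linear_combination (β a) * hxy
    · simp only [F, PiLp.add_apply, PiLp.smul_apply, smul_eq_mul, mk3_2]
      linear_combination (γ a * s (β a)) * hxy

lemma point_supp (hL : Levels G β γ δ) {a b : Fin n} (hab : G.Adj a b) {x y : ℝ}
    (hxy : x + y = 1) (h : x * γ a + y * γ b = 0) : x * δ a + y * δ b = 0 := by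
  rcases hL.edge a b hab with ⟨a1, a2⟩ | ⟨a1, a2, a3⟩ | ⟨a1, a2⟩
  · simp [hL.supp a a1, hL.supp b a2]
  · simp [a2, a3]
  · have e' : x * γ a + y * γ b = γ a := by rw [← a2]; linear_combination (γ a) * hxy
    rw [e'] at h
    simp [hL.supp a h, hL.supp b (by rw [← a2, h])]

/-- The base state: all bars in the plane `z = 0`, in positive directions. -/
def IsBase (p : Fin n → E3) (β γ δ : Fin n → ℝ) : Prop :=
  ∀ v, p v = mk3 (γ v) (β v + δ v) 0

lemma base_eq (hb : IsBase p β γ δ) (v : Fin n) :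
    p v = F (fun _ => 1) (fun _ => 0) (fun _ _ => 0) (fun _ _ => 1) (fun _ _ => 0)
      (β v) (γ v) (δ v) := by
  rw [hb v]
  simp [F]

/-- Membership of a general state in the free space. -/
theorem mem_of_inj (hL : Levels G β γ δ) (hb : IsBase p β γ δ) (hp : p ∈ FreeSpace G p)
    (hne : ∀ a b, G.Adj a b → p a ≠ p b) {c s : ℝ → ℝ} {ex ey ez : ℝ → ℝ → ℝ}
    (h1 : ∀ b, c b ^ 2 + s b ^ 2 = 1)
    (h2 : ∀ b g, ex b g ^ 2 + ey b g ^ 2 + ez b g ^ 2 = 1)
    (h3 : ∀ b g, c b * ex b g + s b * ez b g = 0)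
    (hinj : ∀ b g l b' g' l' : ℝ, (g = 0 → l = 0) → (g' = 0 → l' = 0) →
      F c s ex ey ez b g l = F c s ex ey ez b' g' l' → b = b' ∧ g = g' ∧ l = l') :
    (fun v => F c s ex ey ez (β v) (γ v) (δ v)) ∈ FreeSpace G p := by
  refine mem_freeSpace hp hne ?_ ?_
  · intro u v w huv huw
    rw [inner_F hL h1 h2 h3 huv huw, base_eq hb u, base_eq hb v, base_eq hb w,
      inner_F hL (by simp) (by simp) (by simp) huv huw]
  · intro a b c' d hab hcd x y x' y' _ _ hxy _ _ hxy' h
    rw [point_F hL _ _ _ _ _ hab hxy, point_F hL _ _ _ _ _ hcd hxy'] at h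
    obtain ⟨e1, e2, e3⟩ := hinj _ _ _ _ _ _ (point_supp hL hab hxy) (point_supp hL hcd hxy') h
    rw [base_eq hb a, base_eq hb b, base_eq hb c', base_eq hb d, point_F hL _ _ _ _ _ hab hxy,
      point_F hL _ _ _ _ _ hcd hxy', e1, e2, e3]

end Pool.Agent.Run7.h544
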