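import Pool.Agent.Run7.h544.Normal

/-!
Flat-state connectivity of the trees reached from an axis by two turns.
-/

set_option autoImplicit false

namespace Pool.Agent.Run7.h544

open Module

variable {n : ℕ} {G : SimpleGraph (Fin n)} {p : Fin n → E3} {β γ δ : Fin n → ℝ}

lemma exists_normal (V : Submodule ℝ E3) (h : finrank ℝ V ≤ 2) :
    ∃ N : E3, ‖N‖ = 1 ∧ ∀ x ∈ V, inner ℝ N x = 0 := by
  have h1 := Submodule.finrank_add_finrank_orthogonal V
  rw [finrank_euclideanSpace_fin] at h1
  have h2 : Vᗮ ≠ ⊥ := by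
    intro h3
    rw [h3, finrank_bot] at h1
    omega
  obtain ⟨x, hx, hx0⟩ := Submodule.exists_mem_ne_zero_of_ne_bot h2
  refine ⟨‖x‖⁻¹ • x, ?_, ?_⟩
  · rw [norm_smul, norm_inv, norm_norm]
    exact inv_mul_cancel₀ (norm_ne_zero_iff.2 hx0)
  · intro y hy
    rw [inner_smul_left]
    have := Submodule.inner_left_of_mem_orthogonal hy hx
    rw [this, mul_zero]

lemma exists_basis_two {a N : E3} (ha : ‖a‖ = 1) (hN : ‖N‖ = 1) (haN : inner ℝ a N = 0)
    (i : Fin 3) (hi : i ≠ 2) : ∃ B : OrthonormalBasis (Fin 3) ℝ E3, B i = a ∧ B 2 = N := by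
  have hv : Orthonormal ℝ (Set.domRestrict ({i, 2} : Set (Fin 3)) (fun k => if k = 2 then N else a)) := by
    constructor
    · rintro ⟨k, hk⟩
      simp only [Set.domRestrict_apply]
      split_ifs
      · exact hN
      · exact ha
    · rintro ⟨k, hk⟩ ⟨k', hk'⟩ hne
      have hne' : k ≠ k' := fun h => hne (Subtype.ext h)
      simp only [Set.mem_insert_iff, Set.mem_singleton_iff] at hk hk'
      simp only [Set.domRestrict_apply]
      rcases hk with rfl | rfl <;> rcases hk' with rfl | rfl
      · exact absurd rfl hne'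
      · rw [if_neg hi, if_pos rfl]; exact haN
      · rw [if_pos rfl, if_neg hi, real_inner_comm]; exact haN
      · exact absurd rfl hne'
  obtain ⟨B, hB⟩ := Orthonormal.exists_orthonormalBasis_extension_of_card_eq
    (by simp) hv
  refine ⟨B, ?_, ?_⟩
  · rw [hB i (by simp), if_neg hi]
  · rw [hB 2 (by simp), if_pos rfl]

lemma exists_basis_one {N : E3} (hN : ‖N‖ = 1) :
    ∃ B : OrthonormalBasis (Fin 3) ℝ E3, B 2 = N := by
  have hv : Orthonormal ℝ (Set.domRestrict ({2} : Set (Fin 3)) (fun _ => N)) := by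
    constructor
    · rintro ⟨k, hk⟩
      exact hN
    · rintro ⟨k, hk⟩ ⟨k', hk'⟩ hne
      exfalso
      apply hne
      apply Subtype.ext
      exact (Set.mem_singleton_iff.1 hk).trans (Set.mem_singleton_iff.1 hk').symm
  obtain ⟨B, hB⟩ := Orthonormal.exists_orthonormalBasis_extension_of_card_eq
    (by simp) hv
  exact ⟨B, hB 2 (by simp)⟩

/-- Every planar state is joined to a flat state given by sign functions. -/
theorem exists_flat (hG : G.Connected) (hL : Levels G β γ δ) {o : Fin n} (ho : γ o = 0)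
    (hb : IsBase p β γ δ) (hp : p ∈ FreeSpace G p) (hne : ∀ a b, G.Adj a b → p a ≠ p b)
    {q : Fin n → E3} (hq : q ∈ FreeSpace G p)
    (hflat : finrank ℝ (vectorSpan ℝ (Set.range q)) ≤ 2) :
    ∃ (σ : ℝ → ℝ) (τ : ℝ → ℝ → ℝ), (∀ b, σ b ^ 2 = 1) ∧ (∀ b g, τ b g ^ 2 = 1) ∧
      JoinedIn (FreeSpace G p) q (flat β γ δ σ τ) := by
  obtain ⟨N, hN, hNV⟩ := exists_normal _ hflat
  have hNq : ∀ v w, inner ℝ N (q v - q w) = 0 := by
    intro v w
    exact hNV _ (vsub_mem_vectorSpan ℝ (Set.mem_range_self v) (Set.mem_range_self w))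
  have hq0 : ∀ w, G.Adj o w → q w - q o ≠ 0 := by
    intro w how h
    have h1 := hq.1 o w w how how
    rw [h, inner_zero_left] at h1
    have h2 := inner_self_eq_zero.1 h1.symm
    exact hne o w how (sub_eq_zero.1 h2).symm
  obtain ⟨B, hB2, hBal⟩ : ∃ B : OrthonormalBasis (Fin 3) ℝ E3, B 2 = N ∧
      ∀ w, G.Adj o w → ∃ w', G.Adj o w' ∧ (γ o = γ w' → inner ℝ (B 0) (q w' - q o) = 0) ∧
      (β o + δ o = β w' + δ w' → inner ℝ (B 1) (q w' - q o) = 0) := by
    by_cases hw : ∃ w0, G.Adj o w0
    · obtain ⟨w0, how0⟩ := hw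
      have hn0 : ‖q w0 - q o‖ ≠ 0 := norm_ne_zero_iff.2 (hq0 w0 how0)
      set a : E3 := ‖q w0 - q o‖⁻¹ • (q w0 - q o) with ha
      have ha1 : ‖a‖ = 1 := by
        rw [ha, norm_smul, norm_inv, norm_norm]
        exact inv_mul_cancel₀ hn0
      have haN : inner ℝ a N = 0 := by
        rw [ha, inner_smul_left, real_inner_comm, hNq, mul_zero]
      have hqa : q w0 - q o = ‖q w0 - q o‖ • a := by
        rw [ha, smul_smul, mul_inv_cancel₀ hn0, one_smul]
      by_cases hγ : γ o = γ w0
      · obtain ⟨B, hB1, hB2⟩ := exists_basis_two ha1 hN haN 1 (by decide)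
        refine ⟨B, hB2, fun w _ => ⟨w0, how0, fun _ => ?_, fun h => ?_⟩⟩
        · rw [hqa, ← hB1, inner_smul_right, B.inner_eq_ite, if_neg (by decide), mul_zero]
        · exfalso
          apply hne o w0 how0
          rw [hb o, hb w0, hγ, h]
      · obtain ⟨B, hB1, hB2⟩ := exists_basis_two ha1 hN haN 0 (by decide)
        refine ⟨B, hB2, fun w _ => ⟨w0, how0, fun h => absurd h hγ, fun _ => ?_⟩⟩
        rw [hqa, ← hB1, inner_smul_right, B.inner_eq_ite, if_neg (by decide), mul_zero]
    · obtain ⟨B, hB2⟩ := exists_basis_one hN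
      exact ⟨B, hB2, fun w how => absurd ⟨w, how⟩ hw⟩
  set X : Fin n → ℝ := fun v => inner ℝ (B 0) (q v - q o) with hXdef
  set Y : Fin n → ℝ := fun v => inner ℝ (B 1) (q v - q o) with hYdef
  have hrep : ∀ v, B.repr (q v) + (- B.repr (q o)) = mk3 (X v) (Y v) 0 := by
    intro v
    rw [← sub_eq_add_neg, ← map_sub]
    apply ext3
    · rw [OrthonormalBasis.repr_apply_apply]; rfl
    · rw [OrthonormalBasis.repr_apply_apply]; rfl
    · rw [OrthonormalBasis.repr_apply_apply, hB2, hNq]; rfl
  have hin : ∀ u v w, G.Adj u v → G.Adj u w →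
      (X v - X u) * (X w - X u) + (Y v - Y u) * (Y w - Y u) =
      inner ℝ (p v - p u) (p w - p u) := by
    intro u v w huv huw
    rw [← hq.1 u v w huv huw, ← LinearIsometryEquiv.inner_map_map B.repr]
    have e : ∀ v, B.repr (q v - q u) = mk3 (X v - X u) (Y v - Y u) 0 := by
      intro v
      have h1 := hrep v
      have h2 := hrep u
      have : B.repr (q v - q u) = mk3 (X v) (Y v) 0 - mk3 (X u) (Y u) 0 := by
        rw [← h1, ← h2, map_sub]; abel
      rw [this]
      apply ext3 <;> simp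
    rw [e v, e w, inner3]
    simp
  obtain ⟨s0, σ, τ, hs0, hσ, hτ, hXY⟩ := exists_signs hG hL ho hb hp hne X Y
    (by simp [hXdef]) (by simp [hYdef]) hin (by
      intro w how
      obtain ⟨w', h1, h2, h3⟩ := hBal w how
      refine ⟨w', h1, fun h => ?_, fun h => ?_⟩
      · rw [hXdef]; simp only [sub_self, inner_zero_right]; exact (h2 h).symm
      · rw [hYdef]; simp only [sub_self, inner_zero_right]; exact (h3 h).symm)
  have hN0 : N ≠ 0 := by
    intro h
    rw [h, norm_zero] at hN
    norm_num at hN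
  have j1 := joinedIn_isometry hq hN0 (inner ℝ N (q o)) (by
    intro v
    have := hNq v o
    rw [inner_sub_right] at this
    linarith) B.repr (- B.repr (q o))
  have e1 : (fun v => B.repr (q v) + (- B.repr (q o))) = fun v => mk3 (X v) (Y v) 0 := by
    ext v : 1
    exact hrep v
  rw [e1] at j1
  -- reflection of the axis direction
  have j2 : JoinedIn (FreeSpace G p) (fun v => mk3 (X v) (Y v) 0)
      (fun v => mk3 (X v) (s0 * Y v) 0) := by
    have hs : s0 = 1 ∨ s0 = -1 := by
      have : (s0 - 1) * (s0 + 1) = 0 := by linear_combination hs0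
      rcases mul_eq_zero.1 this with h | h
      · left; linarith
      · right; linarith
    rcases hs with rfl | rfl
    · simp only [one_mul]
      exact JoinedIn.refl j1.target_mem
    · have := joinedIn_isometry j1.target_mem (N := mk3 0 0 1) (by
        intro h
        have := congrArg (fun z : E3 => z 2) h
        simp at this) 0 (by intro v; rw [inner3]; simp)
        (Submodule.reflection (Submodule.span ℝ {mk3 0 1 0})ᗮ) 0
      have e2 : (fun v => (Submodule.reflection (Submodule.span ℝ {mk3 0 1 0})ᗮ)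
          (mk3 (X v) (Y v) 0) + 0) = fun v => mk3 (X v) (-1 * Y v) 0 := by
        ext v : 1
        rw [refl_eq, refl_apply, inner3, inner3, add_zero]
        apply ext3
        · simp
        · simp; ring
        · simp
      rw [e2] at this
      exact this
  have j3 := joinedIn_translate j2.target_mem (mk3 0 (β o) 0)
  have e3 : (fun v => mk3 (X v) (s0 * Y v) 0 + mk3 0 (β o) 0) =
      flat β γ δ σ (fun b g => s0 * τ b g) := by
    ext v : 1
    obtain ⟨h1, h2⟩ := hXY v
    unfold flat F
    apply ext3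
    · simp only [PiLp.add_apply, mk3_0, h1]; ring
    · simp only [PiLp.add_apply, mk3_1, h2]
      linear_combination (β v - β o) * hs0
    · simp
  rw [e3] at j3
  exact ⟨σ, fun b g => s0 * τ b g, hσ, fun b g => by
    linear_combination s0 ^ 2 * hτ b g + hs0, (j1.trans j2).trans j3⟩

/-- The tree is reached by two turns: after a congruence the state `p` lies in the plane `z = 0`,
and the vertex `v` has the position `(γ v, β v + δ v, 0)`, where each link changes either only `β`
(a link on the axis `x = 0`), or only `γ` (a link orthogonal to the axis, starting from the axis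
or continuing such a link) or only `δ` (a link parallel to the axis). -/
def ReachedByTwoTurns {n : ℕ} (G : SimpleGraph (Fin n)) (p : Fin n → E3) : Prop :=
  ∃ (f : E3 ≃ᵢ E3) (β γ δ : Fin n → ℝ) (o : Fin n), γ o = 0 ∧
    (∀ v, f (p v) = mk3 (γ v) (β v + δ v) 0) ∧
    (∀ v, γ v = 0 → δ v = 0) ∧
    ∀ a b, G.Adj a b → (γ a = 0 ∧ γ b = 0) ∨ (β a = β b ∧ δ a = 0 ∧ δ b = 0) ∨
      (β a = β b ∧ γ a = γ b)

theorem joined_of_twoTurns (hG : G.Connected) (hne : ∀ a b, G.Adj a b → p a ≠ p b)
    (hp : p ∈ FreeSpace G p) (h : ReachedByTwoTurns G p) {q : Fin n → E3}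
    (hq : q ∈ FreeSpace G p) (hflat : finrank ℝ (vectorSpan ℝ (Set.range q)) ≤ 2) :
    JoinedIn (FreeSpace G p) p q := by
  obtain ⟨f, β, γ, δ, o, ho, hb, hsupp, hedge⟩ := h
  have hL : Levels G β γ δ := ⟨hsupp, hedge⟩
  have hf : ∀ v, f (p v) 2 = 0 := by intro v; rw [hb v]; simp
  have h1 := joinedIn_isometryEquiv hp f f hf
  have hS : FreeSpace G (fun v => f (p v)) = FreeSpace G p :=
    freeSpace_congr (fun u v w _ _ => inner_isometry f _ _ _)
  have hp' : (fun v => f (p v)) ∈ FreeSpace G (fun v => f (p v)) := by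
    rw [hS]; exact h1.target_mem
  have hne' : ∀ a b, G.Adj a b → (fun v => f (p v)) a ≠ (fun v => f (p v)) b := by
    intro a b hab h
    exact hne a b hab (f.injective h)
  have hq' : q ∈ FreeSpace G (fun v => f (p v)) := by rw [hS]; exact hq
  obtain ⟨σ, τ, hσ, hτ, hj⟩ := exists_flat hG hL ho hb hp' hne' hq' hflat
  have hbase : (fun v => f (p v)) = flat β γ δ (fun _ => 1) (fun _ _ => 1) := by
    ext v : 1
    rw [hb v]
    simp [flat, F]
  have hj2 := flat_flat_joined hL hb hp' hne' (σ := fun _ => 1) (τ := fun _ _ => 1)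
    (by simp) (by simp) hσ hτ (by rw [← hbase]; exact hp') hj.target_mem
  rw [← hbase] at hj2
  have hj3 := hj2.trans hj.symm
  rw [hS] at hj3
  exact h1.trans hj3

end Pool.Agent.Run7.h544
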